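import Mathlib

/-!
# A half of the Jordan curve theorem: at most two components

The complement of (the image of) a proper embedding of `ℝ` in the plane has at most two
connected components.
-/

namespace Pool.Agent.W5h16.Pseudo

open Set Topology Complex

/-- continuous logarithms on simply connected spaces -/
lemma exists_log {X : Type*} [TopologicalSpace X] [SimplyConnectedSpace X]
    [LocallyPathConnectedSpace X] (g : X → ℂ) (hg : Continuous g) (h0 : ∀ x, g x ≠ 0) :
    ∃ f : X → ℂ, Continuous f ∧ ∀ x, Complex.exp (f x) = g x := by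
  have hne : Nonempty X := inferInstance
  obtain ⟨x₀⟩ := hne
  rcases isCoveringMapOn_exp.existsUnique_continuousMap_lifts (a₀ := x₀)
    (⟨g, hg⟩ : C(X, ℂ)) (exp_log (h0 x₀)) (fun x ↦ h0 x) with ⟨f, ⟨-, hf⟩, -⟩
  exact ⟨f, f.continuous, fun x => congrFun hf x⟩

/-- a continuous function with values in the kernel of `exp` is constant -/
lemma const_of_exp_one {D : ℝ → ℂ} (hD : Continuous D) (h : ∀ t, Complex.exp (D t) = 1) (s t : ℝ) :
    D s = D t := by
  refine isCoveringMap_exp.const_of_comp hD (fun a a' => ?_) s t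
  apply Subtype.ext
  show Complex.exp (D a) = Complex.exp (D a')
  rw [h, h]

/-- the frontier of a component of the complement of a closed set lies in the set -/
lemma frontier_component {K : Set ℂ} (hK : IsClosed K) (p : ℂ) :
    frontier (connectedComponentIn Kᶜ p) ⊆ K := by
  intro w hw
  by_contra hwK
  have hUo : IsOpen (connectedComponentIn Kᶜ p) := hK.isOpen_compl.connectedComponentIn
  have hWo : IsOpen (connectedComponentIn Kᶜ w) := hK.isOpen_compl.connectedComponentIn
  have hwW : w ∈ connectedComponentIn Kᶜ w := mem_connectedComponentIn hwK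
  have hcl : w ∈ closure (connectedComponentIn Kᶜ p) := frontier_subset_closure hw
  obtain ⟨u, hu1, hu2⟩ := mem_closure_iff.mp hcl _ hWo hwW
  have e1 := connectedComponentIn_eq hu1
  have e2 := connectedComponentIn_eq hu2
  have hwU : w ∈ connectedComponentIn Kᶜ p := by
    rw [e2, ← e1]; exact hwW
  have := hUo.inter_frontier_eq
  have h2 : w ∈ connectedComponentIn Kᶜ p ∩ frontier (connectedComponentIn Kᶜ p) := ⟨hwU, hw⟩
  rw [this] at h2
  exact h2

/-- Borsuk's lemma: independence of the classes of `z - p`. -/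
lemma borsuk {K : Set ℂ} (hK : IsClosed K) {p1 p2 : ℂ} (hp1 : p1 ∉ K) (hp2 : p2 ∉ K)
    (hU : Bornology.IsBounded (connectedComponentIn Kᶜ p1))
    (hsep : p2 ∉ connectedComponentIn Kᶜ p1) {n1 n2 : ℤ} {h : ℂ → ℂ} (hh : Continuous h)
    (hexp : ∀ w ∈ K, Complex.exp (h w) = (w - p1) ^ n1 * (w - p2) ^ n2) : n1 = 0 := by
  classical
  set U := connectedComponentIn Kᶜ p1 with hUdef
  have hUo : IsOpen U := hK.isOpen_compl.connectedComponentIn
  have hp1U : p1 ∈ U := mem_connectedComponentIn hp1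
  have hfr : frontier U ⊆ K := frontier_component hK p1
  have hcl : ∀ w ∈ closure U, w ≠ p2 := by
    rintro w hw rfl
    rcases (closure_eq_self_union_frontier U ▸ hw : w ∈ U ∪ frontier U) with h1 | h1
    · exact hsep h1
    · exact hp2 (hfr h1)
  set Q : ℂ → ℂ := fun w => if w ∈ U then Complex.exp (h w) * (w - p2) ^ (-n2) else (w - p1) ^ n1
    with hQ
  have hQc : Continuous Q := by
    apply continuous_if
    · intro w hw
      have hwK : w ∈ K := hfr hw
      have hw2 : w - p2 ≠ 0 := sub_ne_zero.mpr (hcl w (frontier_subset_closure hw))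
      rw [hexp w hwK, mul_assoc, zpow_neg, mul_inv_cancel₀ (zpow_ne_zero _ hw2), mul_one]
    · apply ContinuousOn.mul
      · exact (Complex.continuous_exp.comp hh).continuousOn
      · apply ContinuousOn.zpow₀
        · fun_prop
        · intro w hw
          exact Or.inl (sub_ne_zero.mpr (hcl w hw))
    · apply ContinuousOn.zpow₀
      · fun_prop
      · intro w hw
        left
        rw [sub_ne_zero]
        rintro rfl
        have : closure {a | a ∉ U} = Uᶜ := (hUo.isClosed_compl).closure_eq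
        rw [this] at hw
        exact hw hp1U
  have hQ0 : ∀ w, Q w ≠ 0 := by
    intro w
    by_cases hw : w ∈ U
    · simp only [hQ, hw, if_true]
      exact mul_ne_zero (Complex.exp_ne_zero _)
        (zpow_ne_zero _ (sub_ne_zero.mpr (hcl w (subset_closure hw))))
    · simp only [hQ, hw, if_false]
      apply zpow_ne_zero
      rw [sub_ne_zero]
      rintro rfl
      exact hw hp1U
  obtain ⟨L, hLc, hL⟩ := exists_log Q hQc hQ0
  obtain ⟨R0, hR0⟩ := hU.subset_ball p1
  set R : ℝ := max R0 1 with hR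
  have hRpos : 0 < R := lt_of_lt_of_le one_pos (le_max_right _ _)
  have hnotin : ∀ θ : ℝ, p1 + R * Complex.exp (θ * I) ∉ U := by
    intro θ hθ
    have h1 := hR0 hθ
    rw [Metric.mem_ball, dist_eq_norm] at h1
    have h2 : ‖p1 + R * Complex.exp (θ * I) - p1‖ = R := by
      rw [add_sub_cancel_left, norm_mul, Complex.norm_exp_ofReal_mul_I, mul_one,
        Complex.norm_real, Real.norm_of_nonneg hRpos.le]
    rw [h2] at h1
    exact absurd h1 (not_lt_of_ge (le_max_left _ _))
  set D : ℝ → ℂ := fun θ => L (p1 + R * Complex.exp (θ * I)) - n1 * (Real.log R + θ * I) with hD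
  have hDc : Continuous D := by
    apply Continuous.sub
    · apply hLc.comp
      fun_prop
    · fun_prop
  have hD1 : ∀ θ, Complex.exp (D θ) = 1 := by
    intro θ
    simp only [hD]
    rw [Complex.exp_sub, hL]
    simp only [hQ, hnotin θ, if_false]
    rw [add_sub_cancel_left, Complex.exp_int_mul, Complex.exp_add, ← Complex.ofReal_exp,
      Real.exp_log hRpos]
    apply div_self
    apply zpow_ne_zero
    exact mul_ne_zero (by exact_mod_cast hRpos.ne') (Complex.exp_ne_zero _)
  have hcon := const_of_exp_one hDc hD1 0 (2 * Real.pi)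
  simp only [hD] at hcon
  have e1 : Complex.exp (((2 * Real.pi : ℝ) : ℂ) * I) = 1 := by
    push_cast
    exact Complex.exp_two_pi_mul_I
  rw [e1] at hcon
  simp only [Complex.ofReal_zero, zero_mul, Complex.exp_zero, add_zero] at hcon
  have h3 : (n1 : ℂ) * (2 * Real.pi * I) = 0 := by
    push_cast at hcon
    linear_combination hcon
  rcases mul_eq_zero.mp h3 with h4 | h4
  · exact_mod_cast h4
  · exact absurd h4 Complex.two_pi_I_ne_zero

/-- a function on the parameter interval of a simple loop descends to the loop and extends -/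
lemma descend {σ : ℝ → ℂ} (hσ : Continuous σ) {a b : ℝ}
    (hinj : ∀ s ∈ Icc a b, ∀ t ∈ Icc a b, σ s = σ t → s = t ∨ (s = a ∧ t = b) ∨ (s = b ∧ t = a))
    {H : ℝ → ℂ} (hH : Continuous H) (hHab : H a = H b) :
    ∃ h : ℂ → ℂ, Continuous h ∧ ∀ s ∈ Icc a b, h (σ s) = H s := by
  have hKc : IsCompact (σ '' Icc a b) := isCompact_Icc.image hσ
  have hw : ∀ w : σ '' Icc a b, ∃ s ∈ Icc a b, σ s = w := fun w => w.2
  choose c hc1 hc2 using hw
  set g : σ '' Icc a b → ℂ := fun w => H (c w) with hg
  have hgs : ∀ s (hs : s ∈ Icc a b), g ⟨σ s, mem_image_of_mem σ hs⟩ = H s := by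
    intro s hs
    have h1 := hc2 ⟨σ s, mem_image_of_mem σ hs⟩
    rcases hinj _ (hc1 ⟨σ s, mem_image_of_mem σ hs⟩) s hs h1 with h | ⟨h, h'⟩ | ⟨h, h'⟩
    · simp only [hg]; rw [h]
    · simp only [hg]; rw [h, h', hHab]
    · simp only [hg]; rw [h, h', hHab]
  have hgc : Continuous g := by
    rw [continuous_iff_isClosed]
    intro C hC
    have : g ⁻¹' C = Subtype.val ⁻¹' (σ '' (Icc a b ∩ H ⁻¹' C)) := by
      ext w
      constructor
      · intro hwC
        exact ⟨c w, ⟨hc1 w, hwC⟩, hc2 w⟩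
      · rintro ⟨s, ⟨hs1, hs2⟩, hs3⟩
        have : w = ⟨σ s, mem_image_of_mem σ hs1⟩ := Subtype.ext hs3.symm
        rw [this, mem_preimage, hgs s hs1]
        exact hs2
    rw [this]
    apply IsClosed.preimage continuous_subtype_val
    apply IsCompact.isClosed
    apply IsCompact.image _ hσ
    exact isCompact_Icc.inter_right (hC.preimage hH)
  obtain ⟨G, hG⟩ := ContinuousMap.exists_restrict_eq hKc.isClosed (⟨g, hgc⟩ : C(σ '' Icc a b, ℂ))
  refine ⟨G, G.continuous, ?_⟩
  intro s hs
  have := congrArg (fun F : C(σ '' Icc a b, ℂ) => F ⟨σ s, mem_image_of_mem σ hs⟩) hG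
  simp only [ContinuousMap.restrict_apply, ContinuousMap.coe_mk] at this
  rw [this, hgs s hs]

/-- two bounded components of the complement of a simple loop coincide -/
lemma loop_core {σ : ℝ → ℂ} (hσ : Continuous σ) {a b : ℝ}
    (hinj : ∀ s ∈ Icc a b, ∀ t ∈ Icc a b, σ s = σ t → s = t ∨ (s = a ∧ t = b) ∨ (s = b ∧ t = a))
    (hcl : σ a = σ b) (hrange : ∀ s, σ s ∈ σ '' Icc a b) {p1 p2 : ℂ}
    (hp1 : p1 ∉ σ '' Icc a b) (hp2 : p2 ∉ σ '' Icc a b)
    (hU1 : Bornology.IsBounded (connectedComponentIn (σ '' Icc a b)ᶜ p1))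
    (hU2 : Bornology.IsBounded (connectedComponentIn (σ '' Icc a b)ᶜ p2))
    (h12 : p2 ∉ connectedComponentIn (σ '' Icc a b)ᶜ p1)
    (h21 : p1 ∉ connectedComponentIn (σ '' Icc a b)ᶜ p2) : False := by
  have hKc : IsCompact (σ '' Icc a b) := isCompact_Icc.image hσ
  obtain ⟨L1, hL1c, hL1⟩ := exists_log (fun s => σ s - p1) (by fun_prop)
    (fun s => sub_ne_zero.mpr (fun h => hp1 (h ▸ hrange s)))
  obtain ⟨L2, hL2c, hL2⟩ := exists_log (fun s => σ s - p2) (by fun_prop)
    (fun s => sub_ne_zero.mpr (fun h => hp2 (h ▸ hrange s)))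
  have e1 : Complex.exp (L1 b) = Complex.exp (L1 a) := by rw [hL1, hL1, hcl]
  have e2 : Complex.exp (L2 b) = Complex.exp (L2 a) := by rw [hL2, hL2, hcl]
  obtain ⟨k1, hk1⟩ := Complex.exp_eq_exp_iff_exists_int.mp e1
  obtain ⟨k2, hk2⟩ := Complex.exp_eq_exp_iff_exists_int.mp e2
  have claim : ∀ n1 n2 : ℤ, n1 * k1 + n2 * k2 = 0 → n1 = 0 ∧ n2 = 0 := by
    intro n1 n2 hn
    have hnC : (n1 : ℂ) * k1 + n2 * k2 = 0 := by exact_mod_cast hn
    obtain ⟨h, hh, hs⟩ := descend hσ (a := a) (b := b) hinj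
      (H := fun s => n1 * L1 s + n2 * L2 s) (by fun_prop) (by
        show (n1 : ℂ) * L1 a + n2 * L2 a = n1 * L1 b + n2 * L2 b
        rw [hk1, hk2]
        linear_combination -(2 * Real.pi * I) * hnC)
    have hexp : ∀ w ∈ σ '' Icc a b, Complex.exp (h w) = (w - p1) ^ n1 * (w - p2) ^ n2 := by
      rintro w ⟨s, hs1, rfl⟩
      rw [hs s hs1]
      show Complex.exp (n1 * L1 s + n2 * L2 s) = _
      rw [Complex.exp_add, Complex.exp_int_mul, Complex.exp_int_mul, hL1, hL2]
    refine ⟨borsuk hKc.isClosed hp1 hp2 hU1 h12 hh hexp, ?_⟩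
    refine borsuk hKc.isClosed hp2 hp1 hU2 h21 (n2 := n1) hh ?_
    intro w hw
    rw [hexp w hw, mul_comm]
  have c1 := claim k2 (-k1) (by ring)
  have hk2' : k2 = 0 := c1.1
  have hk1' : k1 = 0 := by simpa using c1.2
  have c2 := claim 1 0 (by rw [hk1', hk2']; ring)
  exact one_ne_zero c2.1

/-- the closed loop obtained by inverting a properly embedded line in a point off the line -/
noncomputable def invLoop (γ : ℝ → ℂ) (z : ℂ) (s : ℝ) : ℂ :=
  open Classical in
  if s ∈ Ioo (-(Real.pi / 2)) (Real.pi / 2) then (γ (Real.tan s) - z)⁻¹ else 0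

lemma invLoop_of_mem {γ : ℝ → ℂ} {z : ℂ} {s : ℝ} (hs : s ∈ Ioo (-(Real.pi / 2)) (Real.pi / 2)) :
    invLoop γ z s = (γ (Real.tan s) - z)⁻¹ := by
  unfold invLoop; rw [if_pos hs]

lemma invLoop_of_not_mem {γ : ℝ → ℂ} {z : ℂ} {s : ℝ}
    (hs : s ∉ Ioo (-(Real.pi / 2)) (Real.pi / 2)) : invLoop γ z s = 0 := by
  unfold invLoop; rw [if_neg hs]

lemma tendsto_inv_sub (z : ℂ) :
    Filter.Tendsto (fun w : ℂ => (w - z)⁻¹) (Filter.cocompact ℂ) (𝓝 0) := by
  have h1 : Filter.Tendsto (fun w : ℂ => w - z) (Filter.cocompact ℂ) (Filter.cocompact ℂ) :=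
    (Homeomorph.subRight z).isClosedEmbedding.tendsto_cocompact
  have h2 := Filter.tendsto_inv₀_cobounded (α := ℂ)
  rw [Metric.cobounded_eq_cocompact] at h2
  exact h2.comp h1

lemma continuous_invLoop {γ : ℝ → ℂ} (hγ : IsClosedEmbedding γ) {z : ℂ} (hz : z ∉ range γ) :
    Continuous (invLoop γ z) := by
  have hne : ∀ t, γ t - z ≠ 0 := fun t => sub_ne_zero.mpr (fun h => hz ⟨t, h⟩)
  rw [continuous_iff_continuousAt]
  intro s
  have hlim : ∀ (l : Filter ℝ) (l' : Filter ℝ), Filter.Tendsto Real.tan l l' →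
      l' ≤ Filter.cocompact ℝ → Filter.Tendsto (fun s => (γ (Real.tan s) - z)⁻¹) l (𝓝 0) := by
    intro l l' h1 h2
    exact (tendsto_inv_sub z).comp (hγ.tendsto_cocompact.comp (h1.mono_right h2))
  rcases lt_trichotomy s (Real.pi / 2) with h1 | h1 | h1
  · rcases lt_trichotomy s (-(Real.pi / 2)) with h2 | h2 | h2
    · -- left of the interval
      have : invLoop γ z =ᶠ[𝓝 s] fun _ => 0 := by
        filter_upwards [Iio_mem_nhds h2] with t ht
        exact invLoop_of_not_mem (fun h => absurd h.1 (not_lt_of_gt ht))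
      exact continuousAt_const.congr this.symm
    · -- left end
      subst h2
      rw [continuousAt_iff_continuous_left'_right']
      have h0 : invLoop γ z (-(Real.pi / 2)) = 0 :=
        invLoop_of_not_mem (fun h => lt_irrefl _ h.1)
      constructor
      · show Filter.Tendsto _ _ _
        rw [h0]
        apply Filter.Tendsto.congr' _ tendsto_const_nhds
        filter_upwards [self_mem_nhdsWithin] with t ht
        exact (invLoop_of_not_mem (fun h => absurd h.1 (not_lt_of_gt ht))).symm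
      · show Filter.Tendsto _ _ _
        rw [h0]
        apply Filter.Tendsto.congr' _ (hlim _ _ Real.tendsto_tan_neg_pi_div_two
          atBot_le_cocompact)
        filter_upwards [Ioo_mem_nhdsGT h1] with t ht
        exact (invLoop_of_mem ht).symm
    · -- interior
      have : invLoop γ z =ᶠ[𝓝 s] fun s => (γ (Real.tan s) - z)⁻¹ := by
        filter_upwards [Ioo_mem_nhds h2 h1] with t ht
        exact invLoop_of_mem ht
      refine ContinuousAt.congr ?_ this.symm
      have c1 : ContinuousAt Real.tan s :=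
        Real.continuousOn_tan_Ioo.continuousAt (Ioo_mem_nhds h2 h1)
      have c2 : ContinuousAt (fun s => γ (Real.tan s) - z) s :=
        (ContinuousAt.comp (g := γ) hγ.continuous.continuousAt c1).sub continuousAt_const
      exact c2.inv₀ (hne _)
  · -- right end
    subst h1
    rw [continuousAt_iff_continuous_left'_right']
    have h0 : invLoop γ z (Real.pi / 2) = 0 :=
      invLoop_of_not_mem (fun h => lt_irrefl _ h.2)
    constructor
    · show Filter.Tendsto _ _ _
      rw [h0]
      apply Filter.Tendsto.congr' _ (hlim _ _ Real.tendsto_tan_pi_div_two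
        atTop_le_cocompact)
      have : -(Real.pi / 2) < Real.pi / 2 := by linarith [Real.pi_pos]
      filter_upwards [Ioo_mem_nhdsLT this] with t ht
      exact (invLoop_of_mem ht).symm
    · show Filter.Tendsto _ _ _
      rw [h0]
      apply Filter.Tendsto.congr' _ tendsto_const_nhds
      filter_upwards [self_mem_nhdsWithin] with t ht
      exact (invLoop_of_not_mem (fun h => absurd h.2 (not_lt_of_gt ht))).symm
  · -- right of the interval
    have : invLoop γ z =ᶠ[𝓝 s] fun _ => 0 := by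
      filter_upwards [Ioi_mem_nhds h1] with t ht
      exact invLoop_of_not_mem (fun h => absurd h.2 (not_lt_of_gt ht))
    exact continuousAt_const.congr this.symm

/-- **At most two components.** Among three points off a properly embedded line in the plane, two
lie in the same component of its complement. -/
theorem two_components {γ : ℝ → ℂ} (hγ : IsClosedEmbedding γ) {x y z : ℂ} (hx : x ∉ range γ)
    (hy : y ∉ range γ) (hz : z ∉ range γ) :
    y ∈ connectedComponentIn (range γ)ᶜ x ∨ z ∈ connectedComponentIn (range γ)ᶜ x ∨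
      z ∈ connectedComponentIn (range γ)ᶜ y := by
  by_contra hcon
  push Not at hcon
  obtain ⟨hxy, hxz, hyz⟩ := hcon
  have hpi := Real.pi_pos
  set a : ℝ := -(Real.pi / 2) with ha
  set b : ℝ := Real.pi / 2 with hb
  have hab : a < b := by rw [ha, hb]; linarith
  have hne : ∀ t, γ t - z ≠ 0 := fun t => sub_ne_zero.mpr (fun h => hz ⟨t, h⟩)
  have hσ := continuous_invLoop hγ hz
  set σ := invLoop γ z with hσdef
  have hbd : ∀ s ∈ Icc a b, s ∈ Ioo a b ∨ s = a ∨ s = b := by
    intro s hs
    rcases eq_or_lt_of_le hs.1 with h | h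
    · exact Or.inr (Or.inl h.symm)
    rcases eq_or_lt_of_le hs.2 with h' | h'
    · exact Or.inr (Or.inr h')
    · exact Or.inl ⟨h, h'⟩
  have hσa : σ a = 0 := invLoop_of_not_mem (fun h => lt_irrefl _ h.1)
  have hσb : σ b = 0 := invLoop_of_not_mem (fun h => lt_irrefl _ h.2)
  have hσ0 : ∀ s ∈ Ioo a b, σ s ≠ 0 := by
    intro s hs
    rw [hσdef, invLoop_of_mem hs]
    exact inv_ne_zero (hne _)
  have hinj : ∀ s ∈ Icc a b, ∀ t ∈ Icc a b, σ s = σ t →
      s = t ∨ (s = a ∧ t = b) ∨ (s = b ∧ t = a) := by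
    intro s hs t ht hst
    rcases hbd s hs with h1 | h1 | h1 <;> rcases hbd t ht with h2 | h2 | h2
    · left
      rw [hσdef, invLoop_of_mem h1, invLoop_of_mem h2] at hst
      have h3 := hγ.injective (sub_left_injective (inv_injective hst))
      exact Real.injOn_tan h1 h2 h3
    · rw [h2, hσa] at hst; exact absurd hst (hσ0 s h1)
    · rw [h2, hσb] at hst; exact absurd hst (hσ0 s h1)
    · rw [h1, hσa] at hst; exact absurd hst.symm (hσ0 t h2)
    · left; rw [h1, h2]
    · right; left; exact ⟨h1, h2⟩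
    · rw [h1, hσb] at hst; exact absurd hst.symm (hσ0 t h2)
    · right; right; exact ⟨h1, h2⟩
    · left; rw [h1, h2]
  have hrange : ∀ s, σ s ∈ σ '' Icc a b := by
    intro s
    by_cases hs : s ∈ Ioo a b
    · exact ⟨s, Ioo_subset_Icc_self hs, rfl⟩
    · refine ⟨a, left_mem_Icc.mpr hab.le, ?_⟩
      rw [hσa, hσdef, invLoop_of_not_mem hs]
  have hmem : ∀ w, w ∈ σ '' Icc a b ↔ w = 0 ∨ ∃ t, w = (γ t - z)⁻¹ := by
    intro w
    constructor
    · rintro ⟨s, hs, rfl⟩
      rcases hbd s hs with h1 | h1 | h1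
      · right; exact ⟨Real.tan s, invLoop_of_mem h1⟩
      · left; rw [h1, hσa]
      · left; rw [h1, hσb]
    · rintro (rfl | ⟨t, rfl⟩)
      · exact ⟨a, left_mem_Icc.mpr hab.le, hσa⟩
      · obtain ⟨s, hs, hst⟩ := Real.surjOn_tan (mem_univ t)
        refine ⟨s, Ioo_subset_Icc_self hs, ?_⟩
        rw [hσdef, invLoop_of_mem hs, hst]
  -- facts on points
  have hnot : ∀ p, p ∉ range γ → p ≠ z → (p - z)⁻¹ ∉ σ '' Icc a b := by
    intro p hp hpz h
    rcases (hmem _).mp h with h | ⟨t, h⟩
    · exact hpz (sub_eq_zero.mp (inv_eq_zero.mp h))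
    · exact hp ⟨t, (sub_left_injective (inv_injective h)).symm⟩
  have hcc : ∀ p, p ∉ range γ → p ≠ z → ∀ w ∈ connectedComponentIn (σ '' Icc a b)ᶜ (p - z)⁻¹,
      w ≠ 0 ∧ z + w⁻¹ ∈ connectedComponentIn (range γ)ᶜ p := by
    intro p hp hpz w hw
    have h0 : ∀ w ∈ connectedComponentIn (σ '' Icc a b)ᶜ (p - z)⁻¹, w ≠ 0 := by
      rintro w hw rfl
      exact (connectedComponentIn_subset _ _ hw) ((hmem 0).mpr (Or.inl rfl))
    refine ⟨h0 w hw, ?_⟩
    have hpre : IsPreconnected ((fun w : ℂ => z + w⁻¹) ''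
        connectedComponentIn (σ '' Icc a b)ᶜ (p - z)⁻¹) := by
      apply isPreconnected_connectedComponentIn.image
      apply ContinuousOn.add continuousOn_const
      exact ContinuousOn.inv₀ continuousOn_id h0
    have hpm : p ∈ (fun w : ℂ => z + w⁻¹) '' connectedComponentIn (σ '' Icc a b)ᶜ (p - z)⁻¹ := by
      refine ⟨(p - z)⁻¹, mem_connectedComponentIn (hnot p hp hpz), ?_⟩
      simp
    have hsub : (fun w : ℂ => z + w⁻¹) '' connectedComponentIn (σ '' Icc a b)ᶜ (p - z)⁻¹ ⊆
        (range γ)ᶜ := by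
      rintro _ ⟨v, hv, rfl⟩ ⟨t, ht⟩
      apply (connectedComponentIn_subset _ _ hv)
      rw [hmem]
      right
      refine ⟨t, ?_⟩
      rw [ht]; simp
    exact hpre.subset_connectedComponentIn hpm hsub ⟨w, hw, rfl⟩
  -- boundedness
  have hop : IsOpen (range γ)ᶜ := hγ.isClosed_range.isOpen_compl
  obtain ⟨ε, hε, hball⟩ := Metric.isOpen_iff.mp hop z hz
  have hballcc : Metric.ball z ε ⊆ connectedComponentIn (range γ)ᶜ z :=
    (convex_ball z ε).isPreconnected.subset_connectedComponentIn (Metric.mem_ball_self hε) hball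
  have hbdd : ∀ p, p ∉ range γ → z ∉ connectedComponentIn (range γ)ᶜ p → p ≠ z →
      Bornology.IsBounded (connectedComponentIn (σ '' Icc a b)ᶜ (p - z)⁻¹) := by
    intro p hp hpz hpne
    rw [isBounded_iff_forall_norm_le]
    refine ⟨ε⁻¹, ?_⟩
    intro w hw
    obtain ⟨hw0, hw1⟩ := hcc p hp hpne w hw
    by_contra hlt
    rw [not_le] at hlt
    have h2 : z + w⁻¹ ∈ Metric.ball z ε := by
      rw [Metric.mem_ball, dist_eq_norm, add_sub_cancel_left, norm_inv]
      exact inv_lt_of_inv_lt₀ hε hlt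
    have h3 := hballcc h2
    have e1 := connectedComponentIn_eq hw1
    have e2 := connectedComponentIn_eq h3
    apply hpz
    rw [e1, ← e2]
    exact mem_connectedComponentIn hz
  have hxz' : x ≠ z := by
    rintro rfl; exact hxz (mem_connectedComponentIn hx)
  have hyz' : y ≠ z := by
    rintro rfl; exact hyz (mem_connectedComponentIn hy)
  have h12 : (y - z)⁻¹ ∉ connectedComponentIn (σ '' Icc a b)ᶜ (x - z)⁻¹ := by
    intro h
    have := (hcc x hx hxz' _ h).2
    simp only [inv_inv, add_sub_cancel] at this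
    exact hxy this
  have h21 : (x - z)⁻¹ ∉ connectedComponentIn (σ '' Icc a b)ᶜ (y - z)⁻¹ := by
    intro h
    have := (hcc y hy hyz' _ h).2
    simp only [inv_inv, add_sub_cancel] at this
    have e1 := connectedComponentIn_eq this
    apply hxy
    rw [← e1]
    exact mem_connectedComponentIn hy
  exact loop_core hσ hinj (by rw [hσa, hσb]) hrange (hnot x hx hxz') (hnot y hy hyz')
    (hbdd x hx hxz hxz') (hbdd y hy hyz hyz') h12 h21

end Pool.Agent.W5h16.Pseudo
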