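import Mathlib

/-!
# Combinatorial pseudoline arrangements: basic structure, walks along a line, the triangle bound
-/

namespace Pool.Agent.W5h16.Pseudo

open Finset
open scoped Classical

/-- Combinatorial data of a simple arrangement of x-monotone pseudolines, together with (a graph
containing) its arrangement graph: `sl` orders the lines by slope, `pos i j` is the position on
line `i` of its crossing with line `j`, `vtx i j` is that crossing as a vertex of `G`. -/
structure Arr (ι V : Type*) where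
  sl : ι → ℝ
  pos : ι → ι → ℝ
  G : SimpleGraph V
  vtx : ι → ι → V
  sl_inj : ∀ i j, i ≠ j → sl i ≠ sl j
  pos_inj : ∀ i j k, j ≠ i → k ≠ i → j ≠ k → pos i j ≠ pos i k
  symm : ∀ l i j, l ≠ i → l ≠ j → i ≠ j →
    ((pos i l < pos i j ↔ sl l < sl i) ↔ (pos j l < pos j i ↔ sl l < sl j))
  vtx_comm : ∀ i j, i ≠ j → vtx i j = vtx j i
  adj : ∀ i j k, j ≠ i → k ≠ i → j ≠ k →
    (∀ l, l ≠ i → ¬ (pos i j < pos i l ∧ pos i l < pos i k) ∧
      ¬ (pos i k < pos i l ∧ pos i l < pos i j)) → G.Adj (vtx i j) (vtx i k)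

namespace Arr

variable {ι V : Type*} (A : Arr ι V)

/-- the crossing of `i` and `j` lies above line `l` -/
def Above (l i j : ι) : Prop := (A.pos i l < A.pos i j ↔ A.sl l < A.sl i)

lemma above_comm {l i j : ι} (h1 : l ≠ i) (h2 : l ≠ j) (h3 : i ≠ j) :
    A.Above l i j ↔ A.Above l j i := A.symm l i j h1 h2 h3

lemma above_of_lt {l i : ι} (j : ι) (h : A.sl l < A.sl i) :
    A.Above l i j ↔ A.pos i l < A.pos i j := by
  unfold Above; simp [h]

lemma ne_of_sl_lt {l i : ι} (h : A.sl l < A.sl i) : l ≠ i := by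
  rintro rfl; exact lt_irrefl _ h

lemma above_of_gt {l i j : ι} (h : A.sl i < A.sl l) (hj : j ≠ i) (hjl : j ≠ l) :
    A.Above l i j ↔ A.pos i j < A.pos i l := by
  have hne := A.pos_inj i j l hj (A.ne_of_sl_lt h).symm hjl
  unfold Above
  have : ¬ A.sl l < A.sl i := by linarith
  simp only [this, iff_false, not_lt]
  exact ⟨fun h => lt_of_le_of_ne h hne, le_of_lt⟩

lemma sl_lt_or_gt {i j : ι} (h : i ≠ j) : A.sl i < A.sl j ∨ A.sl j < A.sl i :=
  lt_or_gt_of_ne (A.sl_inj i j h)

lemma pos_lt_or_gt {i j k : ι} (h1 : j ≠ i) (h2 : k ≠ i) (h : j ≠ k) :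
    A.pos i j < A.pos i k ∨ A.pos i k < A.pos i j :=
  lt_or_gt_of_ne (A.pos_inj i j k h1 h2 h)

/-- strict betweenness -/
def Btw (x y z : ℝ) : Prop := (x < y ∧ y < z) ∨ (z < y ∧ y < x)

/-- the two crossings of line `i` with `j` and `k` are on different sides of `l` iff `l` crosses
`i` strictly between them -/
lemma above_iff_btw {l i j k : ι} (hl : l ≠ i) (hj : j ≠ i) (hk : k ≠ i) (hlj : l ≠ j)
    (hlk : l ≠ k) :
    ¬ (A.Above l i j ↔ A.Above l i k) ↔ Btw (A.pos i j) (A.pos i l) (A.pos i k) := by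
  have h1 := A.pos_lt_or_gt hl hj hlj
  have h2 := A.pos_lt_or_gt hl hk hlk
  unfold Above Btw
  rcases A.sl_lt_or_gt hl with h | h
  · simp only [h, iff_true]
    rcases h1 with h1 | h1 <;> rcases h2 with h2 | h2
    · simp [h1, h2, not_lt_of_gt h1, not_lt_of_gt h2]
    · simp [h1, h2, not_lt_of_gt h1, not_lt_of_gt h2]
    · simp [h1, h2, not_lt_of_gt h1, not_lt_of_gt h2]
    · simp [h1, h2, not_lt_of_gt h1, not_lt_of_gt h2]
  · have h' : ¬ A.sl l < A.sl i := by linarith
    simp only [h', iff_false]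
    rcases h1 with h1 | h1 <;> rcases h2 with h2 | h2
    · simp [h1, h2, not_lt_of_gt h1, not_lt_of_gt h2]
    · simp [h1, h2, not_lt_of_gt h1, not_lt_of_gt h2]
    · simp [h1, h2, not_lt_of_gt h1, not_lt_of_gt h2]
    · simp [h1, h2, not_lt_of_gt h1, not_lt_of_gt h2]

/-- the lines crossing line `i` strictly between its crossings with `j` and `k` -/
noncomputable def cr [Fintype ι] (i j k : ι) : Finset ι :=
  univ.filter (fun l => l ≠ i ∧ Btw (A.pos i j) (A.pos i l) (A.pos i k))

lemma mem_cr [Fintype ι] {i j k l : ι} :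
    l ∈ A.cr i j k ↔ l ≠ i ∧ Btw (A.pos i j) (A.pos i l) (A.pos i k) := by
  unfold cr; simp

lemma Btw.ne_left {x y z : ℝ} (h : Btw x y z) : x ≠ y := by
  rcases h with h | h
  · exact ne_of_lt h.1
  · exact (ne_of_lt h.2).symm

lemma Btw.ne_right {x y z : ℝ} (h : Btw x y z) : y ≠ z := by
  rcases h with h | h
  · exact ne_of_lt h.2
  · exact (ne_of_lt h.1).symm

lemma Btw.ne_mid {x y z : ℝ} (h : Btw x y z) : x ≠ z := by
  rcases h with h | h
  · exact ne_of_lt (h.1.trans h.2)
  · exact (ne_of_lt (h.1.trans h.2)).symm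

lemma Btw.comm {x y z : ℝ} (h : Btw x y z) : Btw z y x := by
  rcases h with h | h
  · exact Or.inr h
  · exact Or.inl h

lemma Btw.trans_left {x y z w : ℝ} (h : Btw x y z) (h' : Btw x w y) : Btw x w z := by
  rcases h with h | h <;> rcases h' with h' | h'
  · exact Or.inl ⟨h'.1, h'.2.trans h.2⟩
  · exact absurd (h'.1.trans h'.2) (not_lt_of_gt h.1)
  · exact absurd (h'.1.trans h'.2) (not_lt_of_gt h.2)
  · exact Or.inr ⟨h.1.trans h'.1, h'.2⟩

lemma Btw.trans_right {x y z w : ℝ} (h : Btw x y z) (h' : Btw y w z) : Btw x w z :=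
  (Btw.trans_left h.comm h'.comm).comm

lemma Btw.disj {x y z w : ℝ} (h : Btw x y z) (h1 : Btw x w y) (h2 : Btw y w z) : False := by
  rcases h with h | h <;> rcases h1 with h1 | h1 <;> rcases h2 with h2 | h2
  · exact absurd h2.1 (not_lt_of_gt h1.2)
  · exact absurd (h2.1.trans h2.2) (not_lt_of_gt h.2)
  · exact absurd (h1.1.trans h1.2) (not_lt_of_gt h.1)
  · exact absurd (h1.1.trans h1.2) (not_lt_of_gt h.1)
  · exact absurd (h1.1.trans h1.2) (not_lt_of_gt h.2)
  · exact absurd (h1.1.trans h1.2) (not_lt_of_gt h.2)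
  · exact absurd (h2.1.trans h2.2) (not_lt_of_gt h.1)
  · exact absurd h2.2 (not_lt_of_gt h1.1)

/-- moving along a line costs one plus the number of lines crossed in between -/
lemma line_move [Fintype ι] (i : ι) :
    ∀ (m : ℕ) (j k : ι), j ≠ i → k ≠ i → j ≠ k → (A.cr i j k).card = m →
    A.G.edist (A.vtx i j) (A.vtx i k) ≤ ((1 + m : ℕ) : ℕ∞) := by
  intro m
  induction m using Nat.strong_induction_on with
  | _ m ih =>
    intro j k hj hk hjk hm
    by_cases h0 : m = 0
    · subst h0
      rw [Finset.card_eq_zero] at hm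
      have hadj : A.G.Adj (A.vtx i j) (A.vtx i k) := by
        apply A.adj i j k hj hk hjk
        intro l hl
        have h2 : l ∉ A.cr i j k := by rw [hm]; exact Finset.notMem_empty l
        rw [mem_cr] at h2
        unfold Btw at h2
        constructor
        · intro h; exact h2 ⟨hl, Or.inl h⟩
        · intro h; exact h2 ⟨hl, Or.inr h⟩
      rw [SimpleGraph.edist_eq_one_iff_adj.mpr hadj]
      simp
    · have hne : (A.cr i j k).Nonempty := by
        rw [← Finset.card_pos]; omega
      obtain ⟨l, hl⟩ := hne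
      rw [mem_cr] at hl
      obtain ⟨hli, hb⟩ := hl
      have hjl : j ≠ l := fun h => hb.ne_left (by rw [h])
      have hlk : l ≠ k := fun h => hb.ne_right (by rw [h])
      have hd : Disjoint (A.cr i j l) (A.cr i l k) := by
        rw [Finset.disjoint_left]
        intro t h1 h2
        rw [mem_cr] at h1 h2
        exact Btw.disj hb h1.2 h2.2
      have hsub : insert l (A.cr i j l ∪ A.cr i l k) ⊆ A.cr i j k := by
        intro t ht
        rw [Finset.mem_insert, Finset.mem_union] at ht
        simp only [mem_cr] at ht ⊢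
        rcases ht with rfl | ht | ht
        · exact ⟨hli, hb⟩
        · exact ⟨ht.1, hb.trans_left ht.2⟩
        · exact ⟨ht.1, hb.trans_right ht.2⟩
      have hl1 : l ∉ A.cr i j l ∪ A.cr i l k := by
        rw [Finset.mem_union]
        simp only [mem_cr]
        rintro (⟨-, h⟩ | ⟨-, h⟩)
        · exact h.ne_right rfl
        · exact h.ne_left rfl
      have hc := Finset.card_le_card hsub
      rw [Finset.card_insert_of_notMem hl1, Finset.card_union_of_disjoint hd, hm] at hc
      have e1 := ih (A.cr i j l).card (by omega) j l hj hli hjl rfl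
      have e2 := ih (A.cr i l k).card (by omega) l k hli hk hlk rfl
      calc A.G.edist (A.vtx i j) (A.vtx i k)
          ≤ A.G.edist (A.vtx i j) (A.vtx i l) + A.G.edist (A.vtx i l) (A.vtx i k) :=
            SimpleGraph.edist_triangle
        _ ≤ ((1 + (A.cr i j l).card : ℕ) : ℕ∞) + ((1 + (A.cr i l k).card : ℕ) : ℕ∞) :=
            add_le_add e1 e2
        _ = ((1 + (A.cr i j l).card + (1 + (A.cr i l k).card) : ℕ) : ℕ∞) := by push_cast; ring
        _ ≤ ((1 + m : ℕ) : ℕ∞) := by
            apply Nat.cast_le.mpr; omega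

/-- lines touching the bent path `(e,e') → (e,f) → (f,f')` -/
noncomputable def touch [Fintype ι] (e e' f f' : ι) : Finset ι :=
  univ.filter (fun κ => κ ≠ e ∧ κ ≠ e' ∧ κ ≠ f ∧ κ ≠ f' ∧
    (¬ (A.Above κ e e' ↔ A.Above κ e f) ∨ ¬ (A.Above κ f e ↔ A.Above κ f f')))

/-- lines crossing both legs -/
noncomputable def both [Fintype ι] (e e' f f' : ι) : Finset ι :=
  univ.filter (fun κ => κ ≠ e ∧ κ ≠ e' ∧ κ ≠ f ∧ κ ≠ f' ∧
    (¬ (A.Above κ e e' ↔ A.Above κ e f) ∧ ¬ (A.Above κ f e ↔ A.Above κ f f')))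

lemma mem_touch [Fintype ι] {e e' f f' κ : ι} : κ ∈ A.touch e e' f f' ↔
    κ ≠ e ∧ κ ≠ e' ∧ κ ≠ f ∧ κ ≠ f' ∧
    (¬ (A.Above κ e e' ↔ A.Above κ e f) ∨ ¬ (A.Above κ f e ↔ A.Above κ f f')) := by
  unfold touch; simp only [Finset.mem_filter, Finset.mem_univ, true_and]

lemma mem_both [Fintype ι] {e e' f f' κ : ι} : κ ∈ A.both e e' f f' ↔
    κ ≠ e ∧ κ ≠ e' ∧ κ ≠ f ∧ κ ≠ f' ∧
    (¬ (A.Above κ e e' ↔ A.Above κ e f) ∧ ¬ (A.Above κ f e ↔ A.Above κ f f')) := by
  unfold both; simp only [Finset.mem_filter, Finset.mem_univ, true_and]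

lemma mem_cr_iff [Fintype ι] {i j k l : ι} (hj : j ≠ i) (hk : k ≠ i) :
    l ∈ A.cr i j k ↔ l ≠ i ∧ l ≠ j ∧ l ≠ k ∧ ¬ (A.Above l i j ↔ A.Above l i k) := by
  rw [mem_cr]
  constructor
  · rintro ⟨hl, hb⟩
    have h1 : l ≠ j := fun h => hb.ne_left (by rw [h])
    have h2 : l ≠ k := fun h => hb.ne_right (by rw [h])
    exact ⟨hl, h1, h2, (A.above_iff_btw hl hj hk h1 h2).mpr hb⟩
  · rintro ⟨hl, h1, h2, h3⟩
    exact ⟨hl, (A.above_iff_btw hl hj hk h1 h2).mp h3⟩

/-- The triangle bound: cutting the corner `(e,f)` of the bent path from `(e,e')` to `(f,f')`. -/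
theorem tri [Fintype ι] (f f' : ι) (hff' : f ≠ f') : ∀ (m : ℕ) (e e' : ι), e ≠ e' → e ≠ f → e ≠ f' →
    e' ≠ f → e' ≠ f' → (A.Above e' e f ↔ A.Above e' f f') → (A.Above f' e f ↔ A.Above f' e e') →
    (A.both e e' f f').card = m →
    A.G.edist (A.vtx e e') (A.vtx f f') ≤ ((2 + (A.touch e e' f f').card : ℕ) : ℕ∞) := by
  intro m
  induction m using Nat.strong_induction_on with
  | _ m ih =>
    intro e e' hee' hef hef' he'f he'f' H1 H2 hm
    have H1' : (A.Above e' f e ↔ A.Above e' f f') := by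
      rw [A.above_comm he'f hee'.symm hef.symm]; exact H1
    by_cases h0 : m = 0
    · subst h0
      rw [Finset.card_eq_zero] at hm
      have hno : ∀ κ, κ ∉ A.both e e' f f' := by
        intro κ; rw [hm]; exact Finset.notMem_empty κ
      have e1 := A.line_move e _ e' f hee'.symm hef.symm he'f rfl
      have e2 := A.line_move f _ e f' hef hff'.symm hef' rfl
      have hs1 : A.cr e e' f ⊆ A.touch e e' f f' := by
        intro κ hκ
        rw [A.mem_cr_iff hee'.symm hef.symm] at hκ
        obtain ⟨h1, h2, h3, h4⟩ := hκ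
        rw [mem_touch]
        refine ⟨h1, h2, h3, ?_, Or.inl h4⟩
        rintro rfl
        exact h4 H2.symm
      have hs2 : A.cr f e f' ⊆ A.touch e e' f f' := by
        intro κ hκ
        rw [A.mem_cr_iff hef hff'.symm] at hκ
        obtain ⟨h1, h2, h3, h4⟩ := hκ
        rw [mem_touch]
        refine ⟨h2, ?_, h1, h3, Or.inr h4⟩
        rintro rfl
        exact h4 H1'
      have hd : Disjoint (A.cr e e' f) (A.cr f e f') := by
        rw [Finset.disjoint_left]
        intro κ h1 h2
        have h3 := hs1 h1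
        rw [A.mem_cr_iff hee'.symm hef.symm] at h1
        rw [A.mem_cr_iff hef hff'.symm] at h2
        rw [mem_touch] at h3
        exact hno κ (A.mem_both.mpr ⟨h3.1, h3.2.1, h3.2.2.1, h3.2.2.2.1, h1.2.2.2, h2.2.2.2⟩)
      have hc := Finset.card_le_card (Finset.union_subset hs1 hs2)
      rw [Finset.card_union_of_disjoint hd] at hc
      calc A.G.edist (A.vtx e e') (A.vtx f f')
          ≤ A.G.edist (A.vtx e e') (A.vtx e f) + A.G.edist (A.vtx e f) (A.vtx f f') :=
            SimpleGraph.edist_triangle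
        _ = A.G.edist (A.vtx e e') (A.vtx e f) + A.G.edist (A.vtx f e) (A.vtx f f') := by
            rw [A.vtx_comm e f hef]
        _ ≤ ((1 + (A.cr e e' f).card : ℕ) : ℕ∞) + ((1 + (A.cr f e f').card : ℕ) : ℕ∞) :=
            add_le_add e1 e2
        _ = ((1 + (A.cr e e' f).card + (1 + (A.cr f e f').card) : ℕ) : ℕ∞) := by push_cast; ring
        _ ≤ ((2 + (A.touch e e' f f').card : ℕ) : ℕ∞) := by
            apply Nat.cast_le.mpr; omega
    · have hne : (A.both e e' f f').Nonempty := by
        rw [← Finset.card_pos]; omega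
      obtain ⟨ℓ, hℓ, hmin⟩ := Finset.exists_min_image (A.both e e' f f')
        (fun κ => |A.pos e κ - A.pos e e'|) hne
      have hℓ' := hℓ
      rw [mem_both] at hℓ
      obtain ⟨hℓe, hℓe', hℓf, hℓf', hℓ1, hℓ2⟩ := hℓ
      -- betweenness of the new vertices
      have bw : Btw (A.pos e e') (A.pos e ℓ) (A.pos e f) :=
        (A.above_iff_btw hℓe hee'.symm hef.symm hℓe' hℓf).mp hℓ1
      have bz : Btw (A.pos f e) (A.pos f ℓ) (A.pos f f') :=
        (A.above_iff_btw hℓf hef hff'.symm hℓe hℓf').mp hℓ2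
      -- for a line κ not on the first leg's ends etc: monotone facts
      have Fw : ∀ κ, κ ≠ e → κ ≠ ℓ → (κ = e' ∨ κ = f ∨ (A.Above κ e e' ↔ A.Above κ e f)) →
          κ ≠ f → (A.Above κ e ℓ ↔ A.Above κ e f) := by
        intro κ hκe hκℓ h hκf
        by_contra hcon
        have h3 := (A.above_iff_btw hκe hℓe hef.symm hκℓ hκf).mp hcon
        have h4 := bw.trans_right h3
        rcases h with h | h | h
        · exact h4.ne_left (by rw [h])
        · exact h4.ne_right (by rw [h])
        · have hκe' : κ ≠ e' := fun h => h4.ne_left (by rw [h])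
          exact ((A.above_iff_btw hκe hee'.symm hef.symm hκe' hκf).mpr h4) h
      have Fz : ∀ κ, κ ≠ f → κ ≠ ℓ → κ ≠ e → (κ = f' ∨ (A.Above κ f e ↔ A.Above κ f f')) →
          (A.Above κ f ℓ ↔ A.Above κ f e) := by
        intro κ hκf hκℓ hκe h
        by_contra hcon
        have h3 := (A.above_iff_btw hκf hℓf hef hκℓ hκe).mp hcon
        have h4 := bz.trans_left h3.comm
        rcases h with h | h
        · exact h4.ne_right (by rw [h])
        · have hκf' : κ ≠ f' := fun h => h4.ne_right (by rw [h])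
          exact ((A.above_iff_btw hκf hef hff'.symm hκe hκf').mpr h4) h
      have H1new : A.Above e ℓ f ↔ A.Above e f f' := by
        rw [A.above_comm hℓe.symm hef hℓf]
        by_contra hcon
        have h3 := (A.above_iff_btw hef hℓf hff'.symm hℓe.symm hef').mp hcon
        rcases h3 with h3 | h3 <;> rcases bz with h4 | h4
        · exact absurd h3.1 (not_lt_of_gt h4.1)
        · exact absurd (h3.1.trans h3.2) (not_lt_of_gt h4.1)
        · exact absurd (h3.1.trans h3.2) (not_lt_of_gt h4.2)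
        · exact absurd h3.2 (not_lt_of_gt h4.2)
      have H2new : A.Above f' ℓ f ↔ A.Above f' ℓ e := by
        have g1 := Fw f' hef'.symm hℓf'.symm (Or.inr (Or.inr H2.symm)) hff'.symm
        have g2 := Fz f' hff'.symm hℓf'.symm hef'.symm (Or.inl rfl)
        have g3 := A.above_comm hff'.symm hef'.symm hef.symm
        have g4 := A.above_comm hℓf'.symm hef'.symm hℓe
        have g5 := A.above_comm hℓf'.symm hff'.symm hℓf
        grind
      -- the key facts about a general line
      have key : ∀ κ, κ ≠ e → κ ≠ f → κ ≠ ℓ → κ ≠ e' → κ ≠ f' →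
          (A.Above κ e f ↔ A.Above κ f e) ∧ (A.Above κ ℓ e ↔ A.Above κ e ℓ) ∧
          (A.Above κ ℓ f ↔ A.Above κ f ℓ) ∧
          ((A.Above κ e e' ↔ A.Above κ e f) → (A.Above κ e ℓ ↔ A.Above κ e f)) ∧
          ((A.Above κ f e ↔ A.Above κ f f') → (A.Above κ f ℓ ↔ A.Above κ f e)) := by
        intro κ h1 h2 h3 h4 h5
        refine ⟨A.above_comm h1 h2 hef, A.above_comm h3 h1 hℓe, A.above_comm h3 h2 hℓf, ?_, ?_⟩
        · intro h; exact Fw κ h1 h3 (Or.inr (Or.inr h)) h2
        · intro h; exact Fz κ h2 h3 h1 (Or.inr h)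
      have he'not : e' ∉ A.touch ℓ e f f' ∧ e' ∉ A.both ℓ e f f' := by
        have g1 := Fw e' hee'.symm hℓe'.symm (Or.inl rfl) he'f
        have g2 := Fz e' he'f hℓe'.symm hee'.symm (Or.inr H1')
        have g3 := A.above_comm hee'.symm he'f hef
        have g4 := A.above_comm hℓe'.symm hee'.symm hℓe
        have g5 := A.above_comm hℓe'.symm he'f hℓf
        rw [mem_touch, mem_both]
        constructor
        · rintro ⟨-, -, -, -, h⟩; grind
        · rintro ⟨-, -, -, -, h⟩; grind
      have hboth : A.both ℓ e f f' ⊆ (A.both e e' f f').erase ℓ := by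
        intro κ hκ
        have hκe' : κ ≠ e' := by rintro rfl; exact he'not.2 hκ
        rw [mem_both] at hκ
        obtain ⟨h1, h2, h3, h4, h5, h6⟩ := hκ
        rw [Finset.mem_erase, mem_both]
        refine ⟨h1, h2, hκe', h3, h4, ?_⟩
        obtain ⟨k1, k2, k3, k4, k5⟩ := key κ h2 h3 h1 hκe' h4
        have h7 : ¬ (A.Above κ f e ↔ A.Above κ f f') := by grind
        refine ⟨?_, h7⟩
        intro h8
        have := k4 h8
        grind
      have hcardb : (A.both ℓ e f f').card < m := by
        have := Finset.card_le_card hboth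
        rw [Finset.card_erase_of_mem hℓ', hm] at this
        omega
      have IH := ih (A.both ℓ e f f').card hcardb ℓ e hℓe hℓf hℓf' hef hef' H1new H2new rfl
      have e1 := A.line_move e _ e' ℓ hee'.symm hℓe hℓe'.symm rfl
      have hS1 : A.cr e e' ℓ ⊆ A.touch e e' f f' := by
        intro κ hκ
        have hκ' := hκ
        rw [mem_cr] at hκ
        obtain ⟨h1, hb⟩ := hκ
        have hb' := bw.trans_left hb
        have h2 : κ ≠ e' := fun h => hb.ne_left (by rw [h])
        have h3 : κ ≠ f := fun h => hb'.ne_right (by rw [h])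
        have h4 := (A.above_iff_btw h1 hee'.symm hef.symm h2 h3).mpr hb'
        have h5 : κ ≠ f' := by rintro rfl; exact h4 H2.symm
        rw [mem_touch]
        exact ⟨h1, h2, h3, h5, Or.inl h4⟩
      have hT' : A.touch ℓ e f f' ⊆ A.touch e e' f f' := by
        intro κ hκ
        have hκe' : κ ≠ e' := by rintro rfl; exact he'not.1 hκ
        rw [mem_touch] at hκ ⊢
        obtain ⟨h1, h2, h3, h4, h5⟩ := hκ
        refine ⟨h2, hκe', h3, h4, ?_⟩
        obtain ⟨k1, k2, k3, k4, k5⟩ := key κ h2 h3 h1 hκe' h4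
        by_contra hcon
        push Not at hcon
        have := k4 hcon.1
        have := k5 hcon.2
        grind
      have hdisj : Disjoint (A.cr e e' ℓ) (A.touch ℓ e f f') := by
        rw [Finset.disjoint_left]
        intro κ h1 h2
        have h3 := hS1 h1
        rw [mem_touch] at h3
        obtain ⟨g1, g2, g3, g4, g5⟩ := h3
        have hκℓ : κ ≠ ℓ := by
          rintro rfl
          rw [mem_cr] at h1
          exact h1.2.ne_right rfl
        obtain ⟨k1, k2, k3, k4, k5⟩ := key κ g1 g3 hκℓ g2 g4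
        rw [A.mem_cr_iff hee'.symm hℓe] at h1
        have hbb := (A.above_iff_btw g1 hee'.symm hℓe g2 hκℓ).mp h1.2.2.2
        have hnb : κ ∉ A.both e e' f f' := by
          intro hκb
          have := hmin κ hκb
          rcases hbb with hbb | hbb
          · rw [abs_of_pos (by linarith), abs_of_pos (by linarith)] at this
            linarith
          · rw [abs_of_neg (by linarith), abs_of_neg (by linarith)] at this
            linarith
        have hb2 := (A.above_iff_btw g1 hee'.symm hef.symm g2 g3).mpr (bw.trans_left hbb)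
        rw [mem_both] at hnb
        rw [mem_touch] at h2
        have h4 : (A.Above κ f e ↔ A.Above κ f f') := by
          by_contra hcon
          exact hnb ⟨g1, g2, g3, g4, hb2, hcon⟩
        have h5 := k5 h4
        have h6 := h1.2.2.2
        have h7 := h2.2.2.2.2
        grind
      have hℓT : ℓ ∈ A.touch e e' f f' := by
        rw [mem_touch]; exact ⟨hℓe, hℓe', hℓf, hℓf', Or.inl hℓ1⟩
      have hℓnot : ℓ ∉ A.cr e e' ℓ ∪ A.touch ℓ e f f' := by
        rw [Finset.mem_union, mem_cr, mem_touch]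
        rintro (⟨-, h⟩ | ⟨h, -⟩)
        · exact h.ne_right rfl
        · exact h rfl
      have hc := Finset.card_le_card
        (Finset.insert_subset hℓT (Finset.union_subset hS1 hT'))
      rw [Finset.card_insert_of_notMem hℓnot, Finset.card_union_of_disjoint hdisj] at hc
      calc A.G.edist (A.vtx e e') (A.vtx f f')
          ≤ A.G.edist (A.vtx e e') (A.vtx e ℓ) + A.G.edist (A.vtx e ℓ) (A.vtx f f') :=
            SimpleGraph.edist_triangle
        _ = A.G.edist (A.vtx e e') (A.vtx e ℓ) + A.G.edist (A.vtx ℓ e) (A.vtx f f') := by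
            rw [A.vtx_comm e ℓ hℓe.symm]
        _ ≤ ((1 + (A.cr e e' ℓ).card : ℕ) : ℕ∞) + ((2 + (A.touch ℓ e f f').card : ℕ) : ℕ∞) :=
            add_le_add e1 IH
        _ = ((1 + (A.cr e e' ℓ).card + (2 + (A.touch ℓ e f f').card) : ℕ) : ℕ∞) := by
            push_cast; ring
        _ ≤ ((2 + (A.touch e e' f f').card : ℕ) : ℕ∞) := by
            apply Nat.cast_le.mpr; omega

end Arr

end Pool.Agent.W5h16.Pseudo
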