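import Pool.Agent.W5h16.Pseudo.Sym

/-!
# All four sectors, injectivity and the radius bound
-/

namespace Pool.Agent.W5h16.Pseudo

open Finset
open scoped Classical

namespace Arr

variable {ι V : Type*} (A : Arr ι V)

lemma wb_of_not_wa {l i j : ι} (h : ¬ A.WA l i j) : A.WB l i j := by
  unfold WA at h; unfold WB; tauto

/-- dichotomy for vertices to the right -/
lemma dich [Fintype ι] {L : Finset ι} (hL : ∀ i ∈ L, ∀ j ∉ L, A.sl i < A.sl j)
    {a b c d : ι} (hRt : A.Rt a b c d) :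
    (∀ κ ∈ A.up L a b, κ ≠ c ∧ κ ≠ d ∧ ¬ A.Above κ c d) ∨
    (∀ κ ∈ A.dn L a b, κ ≠ c ∧ κ ≠ d ∧ A.Above κ c d) := by
  by_cases hn : ∀ κ ∈ A.up L a b, κ ≠ c ∧ κ ≠ d ∧ ¬ A.Above κ c d
  · exact Or.inl hn
  · right
    push Not at hn
    obtain ⟨κ', hκ', hv⟩ := hn
    have hv' : A.WA κ' c d := by
      unfold WA
      by_cases h1 : κ' = c
      · exact Or.inl h1
      by_cases h2 : κ' = d
      · exact Or.inr (Or.inl h2)
      exact Or.inr (Or.inr (hv h1 h2))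
    rw [mem_up] at hκ'
    intro κ hκ
    rw [mem_dn] at hκ
    have hlt := hL κ hκ.1 κ' hκ'.1
    have h := hRt κ κ' hlt (Or.inr (Or.inr hκ.2.2.2)) (Or.inr (Or.inr hκ'.2.2.2))
    have h2 : ¬ A.WB κ c d := fun hh => h ⟨hv', hh⟩
    unfold WB at h2
    tauto

theorem r_sector [Fintype ι] {L : Finset ι} (hL : ∀ i ∈ L, ∀ j ∉ L, A.sl i < A.sl j)
    {a b c d : ι} {q : ℕ} (ha : a ∈ L) (hb : b ∉ L) (hcd : c ≠ d)
    (hne : ¬ ((c = a ∧ d = b) ∨ (c = b ∧ d = a))) (h1 : A.WA a c d) (h2 : A.WB b c d)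
    (hq1 : q ≤ (A.up L a b).card) (hq2 : q ≤ (A.dn L a b).card) : A.Good q a b c d := by
  have hab := hL a ha b hb
  have nab := A.ne_of_sl_lt hab
  have hRt := A.rt_of_sector hab hcd hne h1 h2
  rcases A.dich hL hRt with hn | hn
  · exact A.r_near hL ha hb hcd hne h1 h2 hn hq1 hq2
  · have hL' : ∀ i ∈ Lᶜ, ∀ j ∉ Lᶜ, A.reflY.sl i < A.reflY.sl j :=
      compl_cut hL (fun i j h => neg_lt_neg h)
    have g : A.reflY.Good q b a c d := by
      refine A.reflY.r_near hL' (by simpa using hb) (by simpa using ha) hcd ?_ ?_ ?_ ?_ ?_ ?_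
      · rintro (⟨g1, g2⟩ | ⟨g1, g2⟩)
        · exact hne (Or.inr ⟨g1, g2⟩)
        · exact hne (Or.inl ⟨g1, g2⟩)
      · unfold WA
        by_cases k1 : b = c
        · exact Or.inl k1
        by_cases k2 : b = d
        · exact Or.inr (Or.inl k2)
        refine Or.inr (Or.inr ?_)
        rw [A.reflY_above k1]
        unfold WB at h2; tauto
      · unfold WB
        by_cases k1 : a = c
        · exact Or.inl k1
        by_cases k2 : a = d
        · exact Or.inr (Or.inl k2)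
        refine Or.inr (Or.inr ?_)
        rw [A.reflY_above k1, not_not]
        unfold WA at h1; tauto
      · rw [A.up_reflY nab]
        intro κ hκ
        obtain ⟨g1, g2, g3⟩ := hn κ hκ
        refine ⟨g1, g2, ?_⟩
        rw [A.reflY_above g1, not_not]; exact g3
      · rw [A.up_reflY nab]; exact hq2
      · rw [A.dn_reflY nab]; exact hq1
    have g' : A.Good q b a c d := g
    exact g'.swap_left nab.symm

theorem l_sector [Fintype ι] {L : Finset ι} (hL : ∀ i ∈ L, ∀ j ∉ L, A.sl i < A.sl j)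
    {a b c d : ι} {q : ℕ} (ha : a ∈ L) (hb : b ∉ L) (hcd : c ≠ d)
    (hne : ¬ ((c = a ∧ d = b) ∨ (c = b ∧ d = a))) (h1 : A.WB a c d) (h2 : A.WA b c d)
    (hq1 : q ≤ (A.am L a b).card) (hq2 : q ≤ (A.bp L a b).card) : A.Good q a b c d := by
  have hab := hL a ha b hb
  have nab := A.ne_of_sl_lt hab
  have hL' : ∀ i ∈ Lᶜ, ∀ j ∉ Lᶜ, A.reflX.sl i < A.reflX.sl j :=
    compl_cut hL (fun i j h => neg_lt_neg h)
  have g : A.reflX.Good q b a c d := by
    refine A.reflX.r_sector hL' (by simpa using hb) (by simpa using ha) hcd ?_ ?_ ?_ ?_ ?_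
    · rintro (⟨g1, g2⟩ | ⟨g1, g2⟩)
      · exact hne (Or.inr ⟨g1, g2⟩)
      · exact hne (Or.inl ⟨g1, g2⟩)
    · unfold WA
      by_cases k1 : b = c
      · exact Or.inl k1
      by_cases k2 : b = d
      · exact Or.inr (Or.inl k2)
      refine Or.inr (Or.inr ?_)
      rw [A.reflX_above k1 hcd.symm k2]
      unfold WA at h2; tauto
    · unfold WB
      by_cases k1 : a = c
      · exact Or.inl k1
      by_cases k2 : a = d
      · exact Or.inr (Or.inl k2)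
      refine Or.inr (Or.inr ?_)
      rw [A.reflX_above k1 hcd.symm k2]
      unfold WB at h1; tauto
    · rw [A.up_reflX nab]; exact hq1
    · rw [A.dn_reflX nab]; exact hq2
  have g' : A.Good q b a c d := g
  exact g'.swap_left nab.symm

/-- transfer of the sector conditions to the rotated arrangement -/
lemma rot_wa_not {L : Finset ι} {C : ℝ} (hL : ∀ i ∈ L, ∀ j ∉ L, A.sl i < A.sl j)
    (hC : ∀ i ∈ L, ∀ j ∉ L, A.sl j < A.sl i + C) {l c d : ι} (hcd : c ≠ d) (hl : l ∉ L) :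
    (A.rot L C hL hC).WA l c d ↔ A.WA l c d := by
  unfold WA
  by_cases k1 : l = c
  · simp [k1]
  by_cases k2 : l = d
  · simp [k2]
  rw [A.rot_above_not hL hC k1 hcd.symm k2 hl]

lemma rot_wb_not {L : Finset ι} {C : ℝ} (hL : ∀ i ∈ L, ∀ j ∉ L, A.sl i < A.sl j)
    (hC : ∀ i ∈ L, ∀ j ∉ L, A.sl j < A.sl i + C) {l c d : ι} (hcd : c ≠ d) (hl : l ∉ L) :
    (A.rot L C hL hC).WB l c d ↔ A.WB l c d := by
  unfold WB
  by_cases k1 : l = c
  · simp [k1]
  by_cases k2 : l = d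
  · simp [k2]
  rw [A.rot_above_not hL hC k1 hcd.symm k2 hl]

lemma rot_wa_mem {L : Finset ι} {C : ℝ} (hL : ∀ i ∈ L, ∀ j ∉ L, A.sl i < A.sl j)
    (hC : ∀ i ∈ L, ∀ j ∉ L, A.sl j < A.sl i + C) {l c d : ι} (hcd : c ≠ d) (hl : l ∈ L) :
    (A.rot L C hL hC).WA l c d ↔ A.WB l c d := by
  unfold WA WB
  by_cases k1 : l = c
  · simp [k1]
  by_cases k2 : l = d
  · simp [k2]
  rw [A.rot_above_mem hL hC k1 hcd.symm k2 hl]

lemma rot_wb_mem {L : Finset ι} {C : ℝ} (hL : ∀ i ∈ L, ∀ j ∉ L, A.sl i < A.sl j)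
    (hC : ∀ i ∈ L, ∀ j ∉ L, A.sl j < A.sl i + C) {l c d : ι} (hcd : c ≠ d) (hl : l ∈ L) :
    (A.rot L C hL hC).WB l c d ↔ A.WA l c d := by
  unfold WA WB
  by_cases k1 : l = c
  · simp [k1]
  by_cases k2 : l = d
  · simp [k2]
  rw [A.rot_above_mem hL hC k1 hcd.symm k2 hl, not_not]

lemma rot_cut [Fintype ι] {L : Finset ι} {C : ℝ} (hL : ∀ i ∈ L, ∀ j ∉ L, A.sl i < A.sl j)
    (hC : ∀ i ∈ L, ∀ j ∉ L, A.sl j < A.sl i + C) :
    ∀ i ∈ Lᶜ, ∀ j ∉ Lᶜ, (A.rot L C hL hC).sl i < (A.rot L C hL hC).sl j := by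
  intro i hi j hj
  rw [Finset.mem_compl] at hi
  rw [Finset.mem_compl, not_not] at hj
  show A.rotSl L C i < A.rotSl L C j
  unfold rotSl
  simp only [hi, hj, if_true, if_false]
  exact hC j hj i hi

theorem t_sector [Fintype ι] {L : Finset ι} (hL : ∀ i ∈ L, ∀ j ∉ L, A.sl i < A.sl j)
    {a b c d : ι} {q : ℕ} (ha : a ∈ L) (hb : b ∉ L) (hcd : c ≠ d)
    (hne : ¬ ((c = a ∧ d = b) ∨ (c = b ∧ d = a))) (h1 : A.WA a c d) (h2 : A.WA b c d)
    (hq1 : q ≤ (A.dn L a b).card) (hq2 : q ≤ (A.bp L a b).card) : A.Good q a b c d := by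
  have hab := hL a ha b hb
  have nab := A.ne_of_sl_lt hab
  obtain ⟨C, hC⟩ := A.exists_C L
  have g : (A.rot L C hL hC).Good q b a c d := by
    refine (A.rot L C hL hC).r_sector (A.rot_cut hL hC) (by simpa using hb) (by simpa using ha)
      hcd ?_ ?_ ?_ ?_ ?_
    · rintro (⟨g1, g2⟩ | ⟨g1, g2⟩)
      · exact hne (Or.inr ⟨g1, g2⟩)
      · exact hne (Or.inl ⟨g1, g2⟩)
    · rw [A.rot_wa_not hL hC hcd hb]; exact h2
    · rw [A.rot_wb_mem hL hC hcd ha]; exact h1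
    · rw [A.up_rot hL hC nab]; exact hq1
    · rw [A.dn_rot hL hC nab]; exact hq2
  have g' : A.Good q b a c d := g
  exact g'.swap_left nab.symm

theorem b_sector [Fintype ι] {L : Finset ι} (hL : ∀ i ∈ L, ∀ j ∉ L, A.sl i < A.sl j)
    {a b c d : ι} {q : ℕ} (ha : a ∈ L) (hb : b ∉ L) (hcd : c ≠ d)
    (hne : ¬ ((c = a ∧ d = b) ∨ (c = b ∧ d = a))) (h1 : A.WB a c d) (h2 : A.WB b c d)
    (hq1 : q ≤ (A.up L a b).card) (hq2 : q ≤ (A.am L a b).card) : A.Good q a b c d := by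
  have hab := hL a ha b hb
  have nab := A.ne_of_sl_lt hab
  obtain ⟨C, hC⟩ := A.exists_C L
  have g : (A.rot L C hL hC).Good q b a c d := by
    refine (A.rot L C hL hC).l_sector (A.rot_cut hL hC) (by simpa using hb) (by simpa using ha)
      hcd ?_ ?_ ?_ ?_ ?_
    · rintro (⟨g1, g2⟩ | ⟨g1, g2⟩)
      · exact hne (Or.inr ⟨g1, g2⟩)
      · exact hne (Or.inl ⟨g1, g2⟩)
    · rw [A.rot_wb_not hL hC hcd hb]; exact h2
    · rw [A.rot_wa_mem hL hC hcd ha]; exact h1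
    · rw [A.am_rot hL hC nab]; exact hq1
    · rw [A.bp_rot hL hC nab]; exact hq2
  have g' : A.Good q b a c d := g
  exact g'.swap_left nab.symm

/-- Every vertex is within distance `n - 2 - q` if all four classes have at least `q` lines. -/
theorem quad [Fintype ι] {L : Finset ι} (hL : ∀ i ∈ L, ∀ j ∉ L, A.sl i < A.sl j)
    {a b c d : ι} {q : ℕ} (ha : a ∈ L) (hb : b ∉ L) (hcd : c ≠ d)
    (hne : ¬ ((c = a ∧ d = b) ∨ (c = b ∧ d = a)))
    (hq1 : q ≤ (A.up L a b).card) (hq2 : q ≤ (A.dn L a b).card)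
    (hq3 : q ≤ (A.am L a b).card) (hq4 : q ≤ (A.bp L a b).card) : A.Good q a b c d := by
  by_cases h1 : A.WA a c d
  · by_cases h2 : A.WA b c d
    · exact A.t_sector hL ha hb hcd hne h1 h2 hq2 hq4
    · exact A.r_sector hL ha hb hcd hne h1 (A.wb_of_not_wa h2) hq1 hq2
  · by_cases h2 : A.WA b c d
    · exact A.l_sector hL ha hb hcd hne (A.wb_of_not_wa h1) h2 hq3 hq4
    · exact A.b_sector hL ha hb hcd hne (A.wb_of_not_wa h1) (A.wb_of_not_wa h2) hq1 hq3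

end Arr

end Pool.Agent.W5h16.Pseudo
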