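import Pool.Agent.W5h16.Pseudo.Ecc

/-!
# Existence of a balanced vertex, and the radius bound for combinatorial arrangements
-/

namespace Pool.Agent.W5h16.Pseudo

open Finset
open scoped Classical

namespace Arr

variable {ι V : Type*} (A : Arr ι V)

/-- the four classes have the same sizes at the two vertices -/
def Same [Fintype ι] (L : Finset ι) (a b c d : ι) : Prop :=
  (A.up L a b).card = (A.up L c d).card ∧ (A.dn L a b).card = (A.dn L c d).card ∧
  (A.am L a b).card = (A.am L c d).card ∧ (A.bp L a b).card = (A.bp L c d).card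

lemma card_flat [Fintype ι] {L : Finset ι} {a b : ι} (ha : a ∈ L) (hb : b ∉ L) :
    (A.am L a b).card + (A.dn L a b).card + 1 = L.card := by
  have hd : Disjoint (A.am L a b) (A.dn L a b) := by
    rw [Finset.disjoint_left]
    intro κ h1 h2
    rw [mem_am] at h1
    rw [mem_dn] at h2
    exact h1.2.2.2 h2.2.2.2
  have hn : a ∉ A.am L a b ∪ A.dn L a b := by
    rw [Finset.mem_union, mem_am, mem_dn]; tauto
  have : L = insert a (A.am L a b ∪ A.dn L a b) := by
    ext κ
    rw [Finset.mem_insert, Finset.mem_union, mem_am, mem_dn]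
    constructor
    · intro h
      by_cases h1 : κ = a
      · exact Or.inl h1
      · have h2 : κ ≠ b := by rintro rfl; exact hb h
        tauto
    · rintro (rfl | h | h)
      · exact ha
      · exact h.1
      · exact h.1
  calc (A.am L a b).card + (A.dn L a b).card + 1
      = (insert a (A.am L a b ∪ A.dn L a b)).card := by
        rw [Finset.card_insert_of_notMem hn, Finset.card_union_of_disjoint hd]
    _ = L.card := by rw [← this]

lemma card_steep [Fintype ι] {L : Finset ι} {a b : ι} (ha : a ∈ L) (hb : b ∉ L) :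
    (A.up L a b).card + (A.bp L a b).card + 1 = Lᶜ.card := by
  have hd : Disjoint (A.up L a b) (A.bp L a b) := by
    rw [Finset.disjoint_left]
    intro κ h1 h2
    rw [mem_up] at h1
    rw [mem_bp] at h2
    exact h1.2.2.2 h2.2.2.2
  have hn : b ∉ A.up L a b ∪ A.bp L a b := by
    rw [Finset.mem_union, mem_up, mem_bp]; tauto
  have : Lᶜ = insert b (A.up L a b ∪ A.bp L a b) := by
    ext κ
    rw [Finset.mem_insert, Finset.mem_union, mem_up, mem_bp, Finset.mem_compl]
    constructor
    · intro h
      by_cases h1 : κ = b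
      · exact Or.inl h1
      · have h2 : κ ≠ a := by rintro rfl; exact h ha
        tauto
    · rintro (rfl | h | h)
      · exact hb
      · exact h.1
      · exact h.1
  calc (A.up L a b).card + (A.bp L a b).card + 1
      = (insert b (A.up L a b ∪ A.bp L a b)).card := by
        rw [Finset.card_insert_of_notMem hn, Finset.card_union_of_disjoint hd]
    _ = Lᶜ.card := by rw [← this]

lemma inj_r [Fintype ι] {L : Finset ι} (hL : ∀ i ∈ L, ∀ j ∉ L, A.sl i < A.sl j)
    {a b c d : ι} (ha : a ∈ L) (hb : b ∉ L) (hc : c ∈ L) (hd : d ∉ L)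
    (hne : ¬ (c = a ∧ d = b)) (h1 : A.WA a c d) (h2 : A.WB b c d) : ¬ A.Same L a b c d := by
  have hab := hL a ha b hb
  have nab := A.ne_of_sl_lt hab
  have hcd := hL c hc d hd
  have ncd := A.ne_of_sl_lt hcd
  have ncb : c ≠ b := by rintro rfl; exact hb hc
  have nda : d ≠ a := by rintro rfl; exact hd ha
  have hRt : A.Rt a b c d := by
    apply A.rt_of_sector hab ncd _ h1 h2
    rintro (h | ⟨h, -⟩)
    · exact hne h
    · exact ncb h
  rintro ⟨s1, s2, s3, s4⟩
  rcases A.dich hL hRt with hn | hn
  · by_cases hdb : d = b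
    · subst hdb
      have nca : c ≠ a := fun h => hne ⟨h, rfl⟩
      have h1' : A.Above a d c := by
        have := (A.wa_comm ncd).mp h1
        rcases this with h | h | h
        · exact absurd h.symm nda
        · exact absurd h.symm nca
        · exact h
      have hp := (A.above_of_lt _ hab).mp h1'
      have hsub : insert c (A.am L c d) ⊆ A.am L a d := by
        intro κ hκ
        rw [Finset.mem_insert] at hκ
        rcases hκ with rfl | hκ
        · rw [mem_am]
          refine ⟨hc, nca, ncd, ?_⟩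
          rw [A.above_comm nca ncd nab, A.above_of_lt _ hcd]
          exact not_lt_of_gt hp
        · rw [mem_am] at hκ ⊢
          obtain ⟨g1, g2, g3, g4⟩ := hκ
          have hs := hL κ g1 d hd
          rw [A.above_comm g2 g3 ncd, A.above_of_lt _ hs, not_lt] at g4
          have hp2 := lt_of_lt_of_le hp g4
          have hκa : κ ≠ a := by rintro rfl; linarith
          refine ⟨g1, hκa, g3, ?_⟩
          rw [A.above_comm hκa g3 nab, A.above_of_lt _ hs]
          exact not_lt_of_gt hp2
      have hn2 : c ∉ A.am L c d := by rw [mem_am]; tauto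
      have := Finset.card_le_card hsub
      rw [Finset.card_insert_of_notMem hn2] at this
      omega
    · have hsub : insert b (A.up L a b) ⊆ A.up L c d := by
        intro κ hκ
        rw [Finset.mem_insert] at hκ
        rcases hκ with rfl | hκ
        · rw [mem_up]
          refine ⟨hb, ncb.symm, Ne.symm hdb, ?_⟩
          unfold WB at h2
          have := ncb.symm
          have := Ne.symm hdb
          tauto
        · have h3 := hn κ hκ
          rw [mem_up] at hκ ⊢
          exact ⟨hκ.1, h3.1, h3.2.1, h3.2.2⟩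
      have hn2 : b ∉ A.up L a b := by rw [mem_up]; tauto
      have := Finset.card_le_card hsub
      rw [Finset.card_insert_of_notMem hn2] at this
      omega
  · by_cases hca : c = a
    · subst hca
      have ndb : d ≠ b := fun h => hne ⟨rfl, h⟩
      have h2' : ¬ A.Above b c d := by
        rcases h2 with h | h | h
        · exact absurd h.symm nab
        · exact absurd h.symm ndb
        · exact h
      have hp : A.pos c b < A.pos c d := by
        rw [A.above_of_gt hab ncd.symm ndb, not_lt] at h2'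
        exact lt_of_le_of_ne h2' (A.pos_inj c b d nab.symm ncd.symm ndb.symm)
      have hsub : insert d (A.bp L c d) ⊆ A.bp L c b := by
        intro κ hκ
        rw [Finset.mem_insert] at hκ
        rcases hκ with rfl | hκ
        · rw [mem_bp]
          exact ⟨hd, ncd.symm, ndb, (A.above_of_gt hcd nab.symm ndb.symm).mpr hp⟩
        · rw [mem_bp] at hκ ⊢
          obtain ⟨g1, g2, g3, g4⟩ := hκ
          have hs := hL c hc κ g1
          rw [A.above_of_gt hs ncd.symm g3.symm] at g4
          have hp2 := hp.trans g4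
          have hκb : κ ≠ b := by rintro rfl; linarith
          exact ⟨g1, g2, hκb, (A.above_of_gt hs nab.symm hκb.symm).mpr hp2⟩
      have hn2 : d ∉ A.bp L c d := by rw [mem_bp]; tauto
      have := Finset.card_le_card hsub
      rw [Finset.card_insert_of_notMem hn2] at this
      omega
    · have hsub : insert a (A.dn L a b) ⊆ A.dn L c d := by
        intro κ hκ
        rw [Finset.mem_insert] at hκ
        rcases hκ with rfl | hκ
        · rw [mem_dn]
          refine ⟨ha, Ne.symm hca, nda.symm, ?_⟩
          unfold WA at h1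
          have := Ne.symm hca
          have := nda.symm
          tauto
        · have h3 := hn κ hκ
          rw [mem_dn] at hκ ⊢
          exact ⟨hκ.1, h3.1, h3.2.1, h3.2.2⟩
      have hn2 : a ∉ A.dn L a b := by rw [mem_dn]; tauto
      have := Finset.card_le_card hsub
      rw [Finset.card_insert_of_notMem hn2] at this
      omega

lemma inj_l [Fintype ι] {L : Finset ι} (hL : ∀ i ∈ L, ∀ j ∉ L, A.sl i < A.sl j)
    {a b c d : ι} (ha : a ∈ L) (hb : b ∉ L) (hc : c ∈ L) (hd : d ∉ L)
    (hne : ¬ (c = a ∧ d = b)) (h1 : A.WB a c d) (h2 : A.WA b c d) : ¬ A.Same L a b c d := by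
  have hab := hL a ha b hb
  have nab := A.ne_of_sl_lt hab
  have hcd := hL c hc d hd
  have ncd := A.ne_of_sl_lt hcd
  have hL' : ∀ i ∈ Lᶜ, ∀ j ∉ Lᶜ, A.reflX.sl i < A.reflX.sl j :=
    compl_cut hL (fun i j h => neg_lt_neg h)
  have key : ¬ A.reflX.Same Lᶜ b a d c := by
    refine A.reflX.inj_r hL' (by simpa using hb) (by simpa using ha) (by simpa using hd)
      (by simpa using hc) (fun h => hne ⟨h.2, h.1⟩) ?_ ?_
    · rw [A.reflX.wa_comm ncd.symm]
      unfold WA
      by_cases k1 : b = c
      · exact Or.inl k1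
      by_cases k2 : b = d
      · exact Or.inr (Or.inl k2)
      refine Or.inr (Or.inr ?_)
      rw [A.reflX_above k1 ncd.symm k2]
      unfold WA at h2; tauto
    · rw [A.reflX.wb_comm ncd.symm]
      unfold WB
      by_cases k1 : a = c
      · exact Or.inl k1
      by_cases k2 : a = d
      · exact Or.inr (Or.inl k2)
      refine Or.inr (Or.inr ?_)
      rw [A.reflX_above k1 ncd.symm k2]
      unfold WB at h1; tauto
  unfold Same at key
  rw [A.up_reflX nab, A.up_reflX ncd, A.dn_reflX nab, A.dn_reflX ncd, A.am_reflX nab,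
    A.am_reflX ncd, A.bp_reflX nab, A.bp_reflX ncd] at key
  unfold Same
  tauto

lemma inj [Fintype ι] {L : Finset ι} (hL : ∀ i ∈ L, ∀ j ∉ L, A.sl i < A.sl j)
    {a b c d : ι} (ha : a ∈ L) (hb : b ∉ L) (hc : c ∈ L) (hd : d ∉ L)
    (hne : ¬ (c = a ∧ d = b)) : ¬ A.Same L a b c d := by
  have hab := hL a ha b hb
  have nab := A.ne_of_sl_lt hab
  have hcd := hL c hc d hd
  have ncd := A.ne_of_sl_lt hcd
  obtain ⟨C, hC⟩ := A.exists_C L
  have tot : ∀ l, A.WA l c d ∨ A.WB l c d := by
    intro l; unfold WA WB; tauto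
  have hrot : A.Same L a b c d → (A.rot L C hL hC).Same Lᶜ b a d c := by
    unfold Same
    rw [A.up_rot hL hC nab, A.up_rot hL hC ncd, A.dn_rot hL hC nab, A.dn_rot hL hC ncd,
      A.am_rot hL hC nab, A.am_rot hL hC ncd, A.bp_rot hL hC nab, A.bp_rot hL hC ncd]
    tauto
  rcases tot a with h1 | h1 <;> rcases tot b with h2 | h2
  · intro hS
    refine (A.rot L C hL hC).inj_r (A.rot_cut hL hC) (by simpa using hb) (by simpa using ha)
      (by simpa using hd) (by simpa using hc) (fun h => hne ⟨h.2, h.1⟩) ?_ ?_ (hrot hS)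
    · rw [wa_comm _ ncd.symm, A.rot_wa_not hL hC ncd hb]; exact h2
    · rw [wb_comm _ ncd.symm, A.rot_wb_mem hL hC ncd ha]; exact h1
  · exact A.inj_r hL ha hb hc hd hne h1 h2
  · exact A.inj_l hL ha hb hc hd hne h1 h2
  · intro hS
    refine (A.rot L C hL hC).inj_l (A.rot_cut hL hC) (by simpa using hb) (by simpa using ha)
      (by simpa using hd) (by simpa using hc) (fun h => hne ⟨h.2, h.1⟩) ?_ ?_ (hrot hS)
    · rw [wb_comm _ ncd.symm, A.rot_wb_not hL hC ncd hb]; exact h2
    · rw [wa_comm _ ncd.symm, A.rot_wa_mem hL hC ncd ha]; exact h1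

/-- every pair of levels is attained at some vertex -/
lemma exists_balanced [Fintype ι] {L : Finset ι} (hL : ∀ i ∈ L, ∀ j ∉ L, A.sl i < A.sl j)
    {x y : ℕ} (hx : x < L.card) (hy : y < Lᶜ.card) :
    ∃ a ∈ L, ∃ b ∉ L, (A.am L a b).card = x ∧ (A.up L a b).card = y := by
  have hmaps : Set.MapsTo (fun p : ι × ι => ((A.am L p.1 p.2).card, (A.up L p.1 p.2).card))
      (L ×ˢ Lᶜ : Finset (ι × ι)) (range L.card ×ˢ range Lᶜ.card : Finset (ℕ × ℕ)) := by
    intro p hp
    rw [Finset.mem_coe, Finset.mem_product] at hp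
    rw [Finset.mem_coe, Finset.mem_product, Finset.mem_range, Finset.mem_range]
    have hp2 : p.2 ∉ L := by simpa using hp.2
    have h1 := A.card_flat hp.1 hp2
    have h2 := A.card_steep hp.1 hp2
    constructor
    · show (A.am L p.1 p.2).card < L.card
      omega
    · show (A.up L p.1 p.2).card < Lᶜ.card
      omega
  have hinj : Set.InjOn (fun p : ι × ι => ((A.am L p.1 p.2).card, (A.up L p.1 p.2).card))
      (L ×ˢ Lᶜ : Finset (ι × ι)) := by
    intro p hp r hr h
    rw [Finset.mem_coe, Finset.mem_product] at hp hr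
    have hp2 : p.2 ∉ L := by simpa using hp.2
    have hr2 : r.2 ∉ L := by simpa using hr.2
    by_contra hcon
    have hne : ¬ (r.1 = p.1 ∧ r.2 = p.2) := by
      intro hh; exact hcon (Prod.ext hh.1.symm hh.2.symm)
    apply A.inj hL hp.1 hp2 hr.1 hr2 hne
    have e1 := (Prod.mk.injEq _ _ _ _).mp h
    have h1 := A.card_flat hp.1 hp2
    have h2 := A.card_steep hp.1 hp2
    have h3 := A.card_flat hr.1 hr2
    have h4 := A.card_steep hr.1 hr2
    unfold Same
    omega
  have hcard : (range L.card ×ˢ range Lᶜ.card : Finset (ℕ × ℕ)).card ≤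
      (L ×ˢ Lᶜ : Finset (ι × ι)).card := by
    rw [Finset.card_product, Finset.card_product, Finset.card_range, Finset.card_range]
  have hsurj := Finset.surjOn_of_injOn_of_card_le _ hmaps hinj hcard
  have hxy : (x, y) ∈ ((range L.card ×ˢ range Lᶜ.card : Finset (ℕ × ℕ)) : Set (ℕ × ℕ)) := by
    rw [Finset.mem_coe, Finset.mem_product, Finset.mem_range, Finset.mem_range]
    exact ⟨hx, hy⟩
  obtain ⟨p, hp, hpe⟩ := hsurj hxy
  rw [Finset.mem_coe, Finset.mem_product] at hp
  have hp2 : p.2 ∉ L := by simpa using hp.2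
  have e1 := (Prod.mk.injEq _ _ _ _).mp hpe
  exact ⟨p.1, hp.1, p.2, hp2, e1.1, e1.2⟩

/-- a lower set of prescribed size in the slope order -/
lemma exists_cut [Fintype ι] (f : ι → ℝ) (hf : ∀ i j, i ≠ j → f i ≠ f j) :
    ∀ k : ℕ, k ≤ Fintype.card ι → ∃ L : Finset ι, L.card = k ∧ ∀ i ∈ L, ∀ j ∉ L, f i < f j := by
  intro k
  induction k with
  | zero => intro _; exact ⟨∅, by simp, by simp⟩
  | succ k ih =>
    intro hk
    obtain ⟨L, hLc, hL⟩ := ih (by omega)
    have hne : (Lᶜ).Nonempty := by
      rw [← Finset.card_pos, Finset.card_compl, hLc]; omega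
    obtain ⟨m, hm, hmin⟩ := Finset.exists_min_image Lᶜ f hne
    rw [Finset.mem_compl] at hm
    refine ⟨insert m L, by rw [Finset.card_insert_of_notMem hm, hLc], ?_⟩
    intro i hi j hj
    rw [Finset.mem_insert] at hi
    rw [Finset.mem_insert, not_or] at hj
    rcases hi with rfl | hi
    · exact lt_of_le_of_ne (hmin j (Finset.mem_compl.mpr hj.2)) (hf _ _ (Ne.symm hj.1))
    · exact hL i hi j hj.2

/-- **Radius bound**, combinatorial form. -/
theorem radius_core [Fintype ι] (hn : 2 ≤ Fintype.card ι) :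
    ∃ a b : ι, a ≠ b ∧ ∀ c d : ι, c ≠ d →
      A.G.edist (A.vtx a b) (A.vtx c d) ≤ ((3 * (Fintype.card ι - 1) / 4 : ℕ) : ℕ∞) := by
  obtain ⟨L, hLc, hL⟩ := exists_cut A.sl A.sl_inj (Fintype.card ι / 2) (by omega)
  have hLc' : Lᶜ.card = Fintype.card ι - Fintype.card ι / 2 := by
    rw [Finset.card_compl, hLc]
  obtain ⟨a, ha, b, hb, h1, h2⟩ := A.exists_balanced hL (x := (L.card - 1) / 2)
    (y := (Lᶜ.card - 1) / 2) (by omega) (by omega)
  have h3 := A.card_flat ha hb
  have h4 := A.card_steep ha hb
  have hab : a ≠ b := by rintro rfl; exact hb ha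
  refine ⟨a, b, hab, ?_⟩
  intro c d hcd
  by_cases hne : (c = a ∧ d = b) ∨ (c = b ∧ d = a)
  · have : A.vtx c d = A.vtx a b := by
      rcases hne with ⟨rfl, rfl⟩ | ⟨rfl, rfl⟩
      · rfl
      · exact A.vtx_comm _ _ hcd
    rw [this, SimpleGraph.edist_self]
    exact bot_le
  · obtain ⟨m, g1, g2⟩ := A.quad (q := (L.card - 1) / 2) hL ha hb hcd hne (by omega) (by omega)
      (by omega) (by omega)
    refine g1.trans (Nat.cast_le.mpr ?_)
    omega

end Arr

end Pool.Agent.W5h16.Pseudo
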