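import Pool.Agent.W5h16.Pseudo.Exist

/-!
# From sides and positions to slopes
-/

namespace Pool.Agent.W5h16.Pseudo

open Finset
open scoped Classical

/-- A simple arrangement recorded by the order of the crossings along each line and by the side
of each line on which each crossing lies. -/
structure PA (ι V : Type*) where
  pos : ι → ι → ℝ
  side : ι → ι → ι → Prop
  G : SimpleGraph V
  vtx : ι → ι → V
  pos_inj : ∀ i j k, j ≠ i → k ≠ i → j ≠ k → pos i j ≠ pos i k
  side_comm : ∀ l i j, i ≠ j → (side l i j ↔ side l j i)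
  side_btw : ∀ l i j k, l ≠ i → j ≠ i → k ≠ i → l ≠ j → l ≠ k →
    (¬ (side l i j ↔ side l i k) ↔ Arr.Btw (pos i j) (pos i l) (pos i k))
  vtx_comm : ∀ i j, i ≠ j → vtx i j = vtx j i
  adj : ∀ i j k, j ≠ i → k ≠ i → j ≠ k →
    (∀ l, l ≠ i → ¬ (pos i j < pos i l ∧ pos i l < pos i k) ∧
      ¬ (pos i k < pos i l ∧ pos i l < pos i j)) → G.Adj (vtx i j) (vtx i k)

namespace PA

variable {ι V : Type*} (P : PA ι V) (o : ι)

/-- same side of `l` on line `i` iff same order relative to `l` -/
lemma side_iff {l i j k : ι} (h1 : l ≠ i) (h2 : j ≠ i) (h3 : k ≠ i) (h4 : l ≠ j) (h5 : l ≠ k) :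
    (P.side l i j ↔ P.side l i k) ↔ (P.pos i l < P.pos i j ↔ P.pos i l < P.pos i k) := by
  have h := P.side_btw l i j k h1 h2 h3 h4 h5
  have n1 := P.pos_inj i l j h1 h2 h4
  have n2 := P.pos_inj i l k h1 h3 h5
  unfold Arr.Btw at h
  rcases lt_or_gt_of_ne n1 with g1 | g1 <;> rcases lt_or_gt_of_ne n2 with g2 | g2
  · have a1 := not_lt_of_gt g1
    have a2 := not_lt_of_gt g2
    simp only [g1, g2, a1, a2] at h ⊢
    simp at h ⊢
    exact h
  · have a1 := not_lt_of_gt g1
    have a2 := not_lt_of_gt g2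
    simp only [g1, g2, a1, a2] at h ⊢
    simp at h ⊢
    exact h
  · have a1 := not_lt_of_gt g1
    have a2 := not_lt_of_gt g2
    simp only [g1, g2, a1, a2] at h ⊢
    simp at h ⊢
    exact h
  · have a1 := not_lt_of_gt g1
    have a2 := not_lt_of_gt g2
    simp only [g1, g2, a1, a2] at h ⊢
    simp at h ⊢
    exact h

/-- orientation of line `i` -/
def ori (i : ι) : Prop := i = o ∨ ∃ j, j ≠ i ∧ j ≠ o ∧ (P.pos i o < P.pos i j ↔ P.side o i j)

/-- orientation of the sides of line `l` -/
def tor (l : ι) : Prop := ∃ j, j ≠ l ∧ j ≠ o ∧ (P.side l o j ↔ P.pos o j < P.pos o l)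

/-- oriented positions -/
noncomputable def pos' (i j : ι) : ℝ := if P.ori o i then P.pos i j else - P.pos i j

lemma pos'_inj (i j k : ι) (h1 : j ≠ i) (h2 : k ≠ i) (h3 : j ≠ k) : P.pos' o i j ≠ P.pos' o i k := by
  have := P.pos_inj i j k h1 h2 h3
  unfold pos'
  split_ifs
  · exact this
  · intro h; exact this (neg_injective h)

lemma pos'_o (j : ι) : P.pos' o o j = P.pos o j := by
  unfold pos' ori; simp

lemma neg_lt {i j k : ι} (h1 : j ≠ i) (h2 : k ≠ i) (h3 : j ≠ k) :
    (- P.pos i j < - P.pos i k) ↔ ¬ (P.pos i j < P.pos i k) := by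
  rw [neg_lt_neg_iff, not_lt]
  exact ⟨le_of_lt, fun h' => lt_of_le_of_ne h' (P.pos_inj i j k h1 h2 h3).symm⟩

lemma pos'_side {i j : ι} (hi : i ≠ o) (hji : j ≠ i) (hjo : j ≠ o) :
    (P.pos' o i o < P.pos' o i j) ↔ P.side o i j := by
  have hn := P.neg_lt (i := i) hi.symm hji hjo.symm
  unfold pos'
  split_ifs with h
  · rcases h with h | ⟨k, hk1, hk2, hk3⟩
    · exact absurd h hi
    · have := P.side_iff (l := o) (i := i) (j := j) (k := k) hi.symm hji hk1 hjo.symm hk2.symm
      tauto
  · have : ¬ (P.pos i o < P.pos i j ↔ P.side o i j) :=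
      fun hh => h (Or.inr ⟨j, hji, hjo, hh⟩)
    rw [hn]
    clear h hn
    tauto

/-- the crossing `(i,j)` is above `l` -/
def ab (l i j : ι) : Prop := if l = o then P.side o i j else (P.side l i j ↔ P.tor o l)

lemma ab_comm {l i j : ι} (h : i ≠ j) : P.ab o l i j ↔ P.ab o l j i := by
  unfold ab
  rw [P.side_comm o i j h, P.side_comm l i j h]

lemma ab_o {l j : ι} (hl : l ≠ o) (hjl : j ≠ l) (hjo : j ≠ o) :
    P.ab o l o j ↔ P.pos o j < P.pos o l := by
  unfold ab
  simp only [hl, if_false]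
  have npos : ∀ k, k ≠ l → k ≠ o → ((P.pos o k < P.pos o l) ↔ ¬ (P.pos o l < P.pos o k)) := by
    intro k h1 h2
    have := P.pos_inj o k l h2 hl h1
    rw [not_lt]
    exact ⟨le_of_lt, fun h => lt_of_le_of_ne h this⟩
  by_cases h : P.tor o l
  · have h' := h
    obtain ⟨k, hk1, hk2, hk3⟩ := h'
    have := P.side_iff (l := l) (i := o) (j := j) (k := k) hl hjo hk2 hjl.symm hk1.symm
    have e1 := npos j hjl hjo
    have e2 := npos k hk1 hk2
    tauto
  · have : ¬ (P.side l o j ↔ P.pos o j < P.pos o l) := fun hh => h ⟨j, hjl, hjo, hh⟩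
    clear npos
    tauto

/-- the slope order -/
def prec (i j : ι) : Prop := j ≠ o ∧ i ≠ j ∧ (i = o ∨ (P.pos o j < P.pos o i ↔ ¬ P.side o i j))

lemma ab_iff {l i j : ι} (h1 : l ≠ i) (h2 : l ≠ j) (h3 : i ≠ j) :
    P.ab o l i j ↔ (P.pos' o i l < P.pos' o i j ↔ P.prec o l i) := by
  by_cases hlo : l = o
  · subst hlo
    have e : P.prec l l i := ⟨h1.symm, h1, Or.inl rfl⟩
    simp only [e, iff_true]
    unfold ab
    simp only [if_true]
    exact (P.pos'_side l h1.symm h3.symm h2.symm).symm
  by_cases hio : i = o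
  · subst hio
    have e : ¬ P.prec i l i := fun h => h.1 rfl
    simp only [e, iff_false]
    rw [P.ab_o i hlo h2.symm h3.symm, P.pos'_o, P.pos'_o, not_lt]
    exact ⟨le_of_lt, fun h => lt_of_le_of_ne h (P.pos_inj i j l h3.symm hlo h2.symm)⟩
  -- reduce to the crossing with `o`
  have base : P.ab o l i o ↔ (P.pos' o i l < P.pos' o i o ↔ P.prec o l i) := by
    rw [P.ab_comm o hio, P.ab_o o hlo h1.symm hio]
    have e1 := P.pos'_side o hio h1 hlo
    have e2 : P.prec o l i ↔ (P.pos o i < P.pos o l ↔ ¬ P.side o l i) := by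
      unfold prec
      constructor
      · rintro ⟨-, -, h | h⟩
        · exact absurd h hlo
        · exact h
      · intro h; exact ⟨hio, h1, Or.inr h⟩
    have e3 : (P.pos' o i l < P.pos' o i o) ↔ ¬ (P.pos' o i o < P.pos' o i l) := by
      have := P.pos'_inj o i l o h1 (Ne.symm hio) hlo
      rw [not_lt]
      exact ⟨le_of_lt, fun h => lt_of_le_of_ne h this⟩
    have e4 := P.side_comm o l i h1
    rw [e3, e2, e1, e4]
    grind
  by_cases hjo : j = o
  · subst hjo; exact base
  have hs := P.side_iff (l := l) (i := i) (j := j) (k := o) h1 h3.symm (Ne.symm hio) h2 hlo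
  have hab : (P.ab o l i j ↔ P.ab o l i o) ↔
      (P.pos' o i l < P.pos' o i j ↔ P.pos' o i l < P.pos' o i o) := by
    unfold ab pos'
    simp only [hlo, if_false]
    have n1 := P.neg_lt (i := i) h1 h3.symm h2
    have n2 := P.neg_lt (i := i) h1 (Ne.symm hio) hlo
    by_cases ho : P.ori o i
    · simp only [ho, if_true]
      rw [← hs]; grind
    · simp only [ho, if_false]
      rw [n1, n2]
      rw [not_iff_not, ← hs]; grind
  rw [← not_iff_not] at base
  grind

lemma prec_irrefl (i : ι) : ¬ P.prec o i i := fun h => h.2.1 rfl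

lemma prec_total {i j : ι} (h : i ≠ j) : P.prec o i j ∨ P.prec o j i := by
  unfold prec
  by_cases hi : i = o
  · left; exact ⟨by rw [← hi]; exact h.symm, h, Or.inl hi⟩
  by_cases hj : j = o
  · right; exact ⟨hi, h.symm, Or.inl hj⟩
  have e := P.side_comm o i j h
  have e2 : (P.pos o j < P.pos o i) ↔ ¬ (P.pos o i < P.pos o j) := by
    rw [not_lt]
    exact ⟨le_of_lt, fun hh => lt_of_le_of_ne hh (P.pos_inj o j i hj hi h.symm)⟩
  have h' := h.symm
  grind

lemma prec_asymm {i j : ι} (h1 : P.prec o i j) : ¬ P.prec o j i := by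
  unfold prec at *
  rintro ⟨g1, g2, g3⟩
  obtain ⟨k1, k2, k3⟩ := h1
  rcases g3 with g3 | g3
  · exact k1 g3
  rcases k3 with k3 | k3
  · exact g1 k3
  have e := P.side_comm o i j k2
  have e2 : (P.pos o j < P.pos o i) ↔ ¬ (P.pos o i < P.pos o j) := by
    rw [not_lt]
    exact ⟨le_of_lt, fun hh => lt_of_le_of_ne hh (P.pos_inj o j i k1 g1 k2.symm)⟩
  grind

/-- Pasch for the reference line: three lines crossing `o` in this order -/
lemma pasch {x y z : ι} (hx : x ≠ o) (hy : y ≠ o) (hz : z ≠ o) (hxy : x ≠ y) (hyz : y ≠ z)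
    (hxz : x ≠ z) (h1 : P.pos o x < P.pos o y) (h2 : P.pos o y < P.pos o z) :
    ¬ ((P.side o x y ↔ P.side o y z) ∧ ¬ (P.side o x y ↔ P.side o x z)) := by
  rintro ⟨g1, g2⟩
  -- `o` crosses `x` between `y` and `z`
  have b1 := (P.side_btw o x y z hx.symm hxy.symm hxz.symm hy.symm hz.symm).mp g2
  -- `o` crosses `z` between `x` and `y`
  have g3 : ¬ (P.side o z x ↔ P.side o z y) := by
    rw [P.side_comm o z x hxz.symm, P.side_comm o z y hyz.symm]
    grind
  have b2 := (P.side_btw o z x y hz.symm hxz hyz hx.symm hy.symm).mp g3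
  -- `y` does not separate (x,o),(x,z)
  have s1 : P.side y x o ↔ P.side y x z := by
    by_contra hc
    have b3 := (P.side_btw y x o z hxy.symm hx.symm hxz.symm hy hyz).mp hc
    rcases b1 with b1 | b1 <;> rcases b3 with b3 | b3
    · linarith [b1.1, b1.2, b3.1, b3.2]
    · linarith [b1.1, b1.2, b3.1, b3.2]
    · linarith [b1.1, b1.2, b3.1, b3.2]
    · linarith [b1.1, b1.2, b3.1, b3.2]
  have s2 : P.side y z o ↔ P.side y z x := by
    by_contra hc
    have b3 := (P.side_btw y z o x hyz hz.symm hxz hy hxy.symm).mp hc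
    rcases b2 with b2 | b2 <;> rcases b3 with b3 | b3
    · linarith [b2.1, b2.2, b3.1, b3.2]
    · linarith [b2.1, b2.2, b3.1, b3.2]
    · linarith [b2.1, b2.2, b3.1, b3.2]
    · linarith [b2.1, b2.2, b3.1, b3.2]
  have s3 : P.side y o x ↔ P.side y o z := by
    rw [P.side_comm y o x hx.symm, P.side_comm y o z hz.symm, s1, s2, P.side_comm y x z hxz]
  have s4 := (P.side_btw y o x z hy hx hz hxy.symm hyz).mpr (Or.inl ⟨h1, h2⟩)
  exact s4 s3

lemma prec_trans {i j k : ι} (h1 : P.prec o i j) (h2 : P.prec o j k) : P.prec o i k := by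
  have hik : i ≠ k := by
    rintro rfl; exact P.prec_asymm o h1 h2
  rcases P.prec_total o hik with h | h
  · exact h
  exfalso
  -- cyclic triple
  have hi : i ≠ o := h.1
  have hj : j ≠ o := h1.1
  have hk : k ≠ o := h2.1
  have hij := h1.2.1
  have hjk := h2.2.1
  have f1 : (P.pos o j < P.pos o i ↔ ¬ P.side o i j) := h1.2.2.resolve_left hi
  have f2 : (P.pos o k < P.pos o j ↔ ¬ P.side o j k) := h2.2.2.resolve_left hj
  have f3 : (P.pos o i < P.pos o k ↔ ¬ P.side o k i) := h.2.2.resolve_left hk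
  have c1 := P.side_comm o i j hij
  have c2 := P.side_comm o j k hjk
  have c3 := P.side_comm o k i hik.symm
  have n1 := P.pos_inj o i j hi hj hij
  have n2 := P.pos_inj o j k hj hk hjk
  have n3 := P.pos_inj o k i hk hi hik.symm
  rcases lt_or_gt_of_ne n1 with a1 | a1 <;> rcases lt_or_gt_of_ne n2 with a2 | a2 <;>
    rcases lt_or_gt_of_ne n3 with a3 | a3
  · linarith
  · -- i < j < k
    have p := P.pasch o hi hj hk hij hjk hik a1 a2
    have := not_lt_of_gt a1
    have := not_lt_of_gt a2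
    grind
  · -- i < j, k < j, k < i : k < i < j
    have p := P.pasch o hk hi hj hik.symm hij hjk.symm a3 a1
    have := not_lt_of_gt a1
    have := not_lt_of_gt a3
    grind
  · -- i < k < j
    have p := P.pasch o hi hk hj hik hjk.symm hij a3 a2
    have := not_lt_of_gt a1
    grind
  · -- j < i, j < k, k < i : j < k < i
    have p := P.pasch o hj hk hi hjk hik.symm hij.symm a2 a3
    have := not_lt_of_gt a2
    have := not_lt_of_gt a3
    grind
  · -- j < i < k
    have p := P.pasch o hj hi hk hij.symm hik hjk a1 a3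
    have := not_lt_of_gt a2
    grind
  · -- k < j < i
    have p := P.pasch o hk hj hi hjk.symm hij.symm hik.symm a2 a1
    have := not_lt_of_gt a3
    grind
  · linarith

/-- numerical slopes -/
noncomputable def slope [Fintype ι] (i : ι) : ℝ := ((univ.filter (fun j => P.prec o j i)).card : ℝ)

lemma slope_lt [Fintype ι] {i j : ι} (h : P.prec o i j) : P.slope o i < P.slope o j := by
  unfold slope
  rw [Nat.cast_lt]
  apply Finset.card_lt_card
  rw [Finset.ssubset_iff_of_subset]
  · refine ⟨i, ?_, ?_⟩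
    · simp only [Finset.mem_filter, Finset.mem_univ, true_and]; exact h
    · simp only [Finset.mem_filter, Finset.mem_univ, true_and]; exact P.prec_irrefl o i
  · intro k hk
    simp only [Finset.mem_filter, Finset.mem_univ, true_and] at hk ⊢
    exact P.prec_trans o hk h

lemma slope_lt_iff [Fintype ι] {i j : ι} (hij : i ≠ j) :
    P.slope o i < P.slope o j ↔ P.prec o i j := by
  constructor
  · intro h
    rcases P.prec_total o hij with h1 | h1
    · exact h1
    · have := P.slope_lt o h1; linarith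
  · exact P.slope_lt o

/-- the associated x-monotone structure -/
noncomputable def toArr [Fintype ι] : Arr ι V where
  sl := P.slope o
  pos := P.pos' o
  G := P.G
  vtx := P.vtx
  sl_inj i j h := by
    rcases P.prec_total o h with h1 | h1
    · exact ne_of_lt (P.slope_lt o h1)
    · exact (ne_of_lt (P.slope_lt o h1)).symm
  pos_inj := P.pos'_inj o
  symm l i j h1 h2 h3 := by
    rw [P.slope_lt_iff o h1, P.slope_lt_iff o h2, ← P.ab_iff o h1 h2 h3, ← P.ab_iff o h2 h1 h3.symm]
    exact P.ab_comm o h3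
  vtx_comm := P.vtx_comm
  adj i j k h1 h2 h3 h := by
    apply P.adj i j k h1 h2 h3
    intro l hl
    have := h l hl
    unfold pos' at this
    by_cases hi : P.ori o i
    · simp only [hi, if_true] at this
      exact this
    · simp only [hi, if_false, neg_lt_neg_iff] at this
      grind

/-- **Radius bound** for arrangements recorded by positions and sides. -/
theorem radius_core [Fintype ι] (hn : 2 ≤ Fintype.card ι) :
    ∃ a b : ι, a ≠ b ∧ ∀ c d : ι, c ≠ d →
      P.G.edist (P.vtx a b) (P.vtx c d) ≤ ((3 * (Fintype.card ι - 1) / 4 : ℕ) : ℕ∞) := by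
  have : Nonempty ι := by
    rw [← Fintype.card_pos_iff]; omega
  obtain ⟨o⟩ := this
  exact (P.toArr o).radius_core hn

end PA

end Pool.Agent.W5h16.Pseudo
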