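import Pool.Agent.W5h16.Pseudo.ZPath

/-!
# Eccentricity of a vertex in terms of its four classes
-/

namespace Pool.Agent.W5h16.Pseudo

open Finset
open scoped Classical

namespace Arr

variable {ι V : Type*} (A : Arr ι V)

lemma Good.swap_left [Fintype ι] {A : Arr ι V} {q : ℕ} {a b c d : ι} (h : A.Good q a b c d)
    (hab : a ≠ b) : A.Good q b a c d := by
  obtain ⟨m, h1, h2⟩ := h
  exact ⟨m, by rw [A.vtx_comm b a hab.symm]; exact h1, h2⟩

lemma Good.swap_right [Fintype ι] {A : Arr ι V} {q : ℕ} {a b c d : ι} (h : A.Good q a b c d)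
    (hcd : c ≠ d) : A.Good q a b d c := by
  obtain ⟨m, h1, h2⟩ := h
  exact ⟨m, by rw [A.vtx_comm d c hcd.symm]; exact h1, h2⟩

lemma bd_a [Fintype ι] {L : Finset ι} (hL : ∀ i ∈ L, ∀ j ∉ L, A.sl i < A.sl j)
    {a b x : ι} {q : ℕ} (ha : a ∈ L) (hb : b ∉ L) (hxa : x ≠ a) (hxb : x ≠ b)
    (h : ¬ A.Above b a x) (hq : q ≤ (A.up L a b).card) : A.Good q a b a x := by
  have hab := hL a ha b hb
  have nab := A.ne_of_sl_lt hab
  have hp : A.pos a b < A.pos a x := by
    rw [A.above_of_gt hab hxa hxb, not_lt] at h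
    exact lt_of_le_of_ne h (A.pos_inj a b x nab.symm hxa hxb.symm)
  have e := A.line_move a _ b x nab.symm hxa hxb.symm rfl
  have hpos : ∀ κ ∈ A.up L a b, A.pos a κ < A.pos a b := by
    intro κ hκ
    rw [mem_up] at hκ
    obtain ⟨k1, k2, k3, k4⟩ := hκ
    rw [A.above_of_gt (hL a ha κ k1) nab.symm k3.symm, not_lt] at k4
    exact lt_of_le_of_ne k4 (A.pos_inj a κ b k2 nab.symm k3)
  refine A.good_of_card (A.cr a b x) (A.up L a b) {a, b, x} e ?_ ?_ ?_ ?_ hq
  · rw [Finset.card_insert_of_notMem, Finset.card_pair hxb.symm]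
    simp [nab, hxa.symm]
  · intro κ hκ
    rw [A.mem_cr_iff nab.symm hxa] at hκ
    simp [hκ.1, hκ.2.1, hκ.2.2.1]
  · intro κ hκ
    have h1 := hpos κ hκ
    rw [mem_up] at hκ
    have h2 : κ ≠ x := by rintro rfl; linarith
    simp [hκ.2.1, hκ.2.2.1, h2]
  · intro κ hκ hκ'
    have h1 := hpos κ hκ'
    rw [mem_cr] at hκ
    rcases hκ.2 with h2 | h2
    · linarith [h2.1]
    · linarith [h2.1, h2.2]

lemma bd_b [Fintype ι] {L : Finset ι} (hL : ∀ i ∈ L, ∀ j ∉ L, A.sl i < A.sl j)
    {a b x : ι} {q : ℕ} (ha : a ∈ L) (hb : b ∉ L) (hxa : x ≠ a) (hxb : x ≠ b)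
    (h : A.Above a b x) (hq : q ≤ (A.dn L a b).card) : A.Good q a b b x := by
  have hab := hL a ha b hb
  have nab := A.ne_of_sl_lt hab
  have hp : A.pos b a < A.pos b x := (A.above_of_lt _ hab).mp h
  have e := A.line_move b _ a x nab hxb hxa.symm rfl
  have hpos : ∀ κ ∈ A.dn L a b, A.pos b κ < A.pos b a := by
    intro κ hκ
    rw [mem_dn] at hκ
    obtain ⟨k1, k2, k3, k4⟩ := hκ
    rw [A.above_comm k2 k3 nab, A.above_of_lt _ (hL κ k1 b hb)] at k4
    exact k4
  refine Good.swap_left (A := A) ?_ nab.symm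
  refine A.good_of_card (A.cr b a x) (A.dn L a b) {b, a, x} e ?_ ?_ ?_ ?_ hq
  · rw [Finset.card_insert_of_notMem, Finset.card_pair hxa.symm]
    simp [nab.symm, hxb.symm]
  · intro κ hκ
    rw [A.mem_cr_iff nab hxb] at hκ
    simp [hκ.1, hκ.2.1, hκ.2.2.1]
  · intro κ hκ
    have h1 := hpos κ hκ
    rw [mem_dn] at hκ
    have h2 : κ ≠ x := by rintro rfl; linarith
    simp [hκ.2.1, hκ.2.2.1, h2]
  · intro κ hκ hκ'
    have h1 := hpos κ hκ'
    rw [mem_cr] at hκ
    rcases hκ.2 with h2 | h2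
    · linarith [h2.1]
    · linarith [h2.1, h2.2]

/-- open right sector, all steep upper lines stay strictly above `v`; `c` flatter than `d` -/
lemma r_near_open [Fintype ι] {L : Finset ι} (hL : ∀ i ∈ L, ∀ j ∉ L, A.sl i < A.sl j)
    {a b c d : ι} {q : ℕ} (ha : a ∈ L) (hb : b ∉ L) (hcd : A.sl c < A.sl d)
    (hca : c ≠ a) (hcb : c ≠ b) (hda : d ≠ a) (hdb : d ≠ b)
    (h1 : A.Above a c d) (h2 : ¬ A.Above b c d)
    (hnear : ∀ κ ∈ A.up L a b, κ ≠ c ∧ κ ≠ d ∧ ¬ A.Above κ c d)
    (hq1 : q ≤ (A.up L a b).card) (hq2 : q ≤ (A.dn L a b).card) : A.Good q a b c d := by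
  have hab := hL a ha b hb
  have nab := A.ne_of_sl_lt hab
  have ncd := A.ne_of_sl_lt hcd
  have hRt : A.Rt a b c d := by
    apply A.rt_of_sector hab ncd
    · rintro (⟨h, -⟩ | ⟨h, -⟩)
      · exact hca h
      · exact hcb h
    · exact Or.inr (Or.inr h1)
    · exact Or.inr (Or.inr h2)
  have h1' : A.Above a d c := (A.above_comm hda.symm hca.symm ncd.symm).mpr h1
  have h2' : ¬ A.Above b d c := by rw [A.above_comm hdb.symm hcb.symm ncd.symm]; exact h2
  have hnear' : ∀ κ ∈ A.up L a b, κ ≠ d ∧ κ ≠ c ∧ ¬ A.Above κ d c := by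
    intro κ hκ
    obtain ⟨g1, g2, g3⟩ := hnear κ hκ
    refine ⟨g2, g1, ?_⟩
    rw [A.above_comm g2 g1 ncd.symm]; exact g3
  by_cases hc : A.Above c a b
  · have hsc := A.sec1 hab ncd hca hcb hda hdb h1 h2 hc
    have hd : A.Above d a b := by
      by_contra hd
      exact hRt c d hcd (Or.inr (Or.inr hc)) (Or.inr (Or.inr hd))
        ⟨Or.inr (Or.inl rfl), Or.inl rfl⟩
    have hp := (A.above_of_gt hsc nab.symm hcb.symm).mp hc
    refine A.below_path hL ha hb hca.symm hda.symm hcb.symm hdb.symm ncd hp h2 ?_ hq1 hnear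
    have : A.Above d a c := by
      rw [A.above_comm hda ncd.symm hca.symm, A.above_of_gt hcd hca.symm hda.symm]
      exact (A.above_of_lt _ hsc).mp h1
    simp [this, hd]
  · by_cases hd : A.Above d a b
    · have hsd := A.sec1 hab ncd.symm hda hdb hca hcb h1' h2' hd
      have hp := (A.above_of_gt hsd nab.symm hdb.symm).mp hd
      refine Good.swap_right (A := A) ?_ ncd.symm
      refine A.below_path hL ha hb hda.symm hca.symm hdb.symm hcb.symm ncd.symm hp h2' ?_ hq1
        hnear'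
      have : ¬ A.Above c a d := by
        rw [A.above_comm hca ncd hda.symm, A.above_of_lt _ hcd]
        exact not_lt_of_gt ((A.above_of_lt _ hsd).mp h1')
      simp [this, hc]
    · rcases A.sl_lt_or_gt hca with hsc | hsc
      · have hp : A.pos a b < A.pos a c := by
          have h := hc
          rw [A.above_of_lt _ hsc, not_lt] at h
          exact lt_of_le_of_ne h (A.pos_inj a b c nab.symm hca hcb.symm)
        refine A.below_path hL ha hb hca.symm hda.symm hcb.symm hdb.symm ncd hp h2 ?_ hq1 hnear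
        have : ¬ A.Above d a c := by
          rw [A.above_comm hda ncd.symm hca.symm, A.above_of_gt hcd hca.symm hda.symm]
          exact not_lt_of_gt ((A.above_of_gt hsc ncd.symm hda).mp h1)
        simp [this, hd]
      · have hcL : c ∈ L := by
          by_contra hcL
          exact (hnear c (A.mem_up.mpr ⟨hcL, hca, hcb, hc⟩)).1 rfl
        have hdL : d ∈ L := by
          by_contra hdL
          exact (hnear d (A.mem_up.mpr ⟨hdL, hda, hdb, hd⟩)).2.1 rfl
        by_cases hM : ∃ κ ∈ A.dn L a b, ¬ A.Above κ c d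
        · exact A.z_path hL ha hb hcL hdL hsc hcd h1 h2 hc hd hRt hM hnear hq1
        · push Not at hM
          exact Good.swap_left (Good.swap_right (A.above_path hL ha hb hca.symm hda.symm hcb.symm
            hdL hcd h1 h2 hc hd hq2 hM) ncd.symm) nab.symm

lemma r_near [Fintype ι] {L : Finset ι} (hL : ∀ i ∈ L, ∀ j ∉ L, A.sl i < A.sl j)
    {a b c d : ι} {q : ℕ} (ha : a ∈ L) (hb : b ∉ L) (hcd : c ≠ d)
    (hne : ¬ ((c = a ∧ d = b) ∨ (c = b ∧ d = a))) (h1 : A.WA a c d) (h2 : A.WB b c d)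
    (hnear : ∀ κ ∈ A.up L a b, κ ≠ c ∧ κ ≠ d ∧ ¬ A.Above κ c d)
    (hq1 : q ≤ (A.up L a b).card) (hq2 : q ≤ (A.dn L a b).card) : A.Good q a b c d := by
  have hab := hL a ha b hb
  have nab := A.ne_of_sl_lt hab
  have onA : ∀ x, x ≠ a → x ≠ b → A.WB b a x → A.Good q a b a x := by
    intro x hxa hxb h
    refine A.bd_a hL ha hb hxa hxb ?_ hq1
    rcases h with h | h | h
    · exact absurd h.symm nab
    · exact absurd h.symm hxb
    · exact h
  have onB : ∀ x, x ≠ a → x ≠ b → A.WA a b x → A.Good q a b b x := by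
    intro x hxa hxb h
    refine A.bd_b hL ha hb hxa hxb ?_ hq2
    rcases h with h | h | h
    · exact absurd h nab
    · exact absurd h.symm hxa
    · exact h
  by_cases ca : c = a
  · subst ca
    have hdb : d ≠ b := fun h => hne (Or.inl ⟨rfl, h⟩)
    exact onA d hcd.symm hdb h2
  by_cases da : d = a
  · subst da
    have hcb : c ≠ b := fun h => hne (Or.inr ⟨h, rfl⟩)
    exact (onA c hcd hcb ((A.wb_comm hcd).mp h2)).swap_right hcd.symm
  by_cases cb : c = b
  · subst cb
    exact onB d da hcd.symm h1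
  by_cases db : d = b
  · subst db
    exact (onB c ca hcd ((A.wa_comm hcd).mp h1)).swap_right hcd.symm
  have h1' : A.Above a c d := by
    rcases h1 with h | h | h
    · exact absurd h.symm ca
    · exact absurd h.symm da
    · exact h
  have h2' : ¬ A.Above b c d := by
    rcases h2 with h | h | h
    · exact absurd h.symm cb
    · exact absurd h.symm db
    · exact h
  rcases A.sl_lt_or_gt hcd with h | h
  · exact A.r_near_open hL ha hb h ca cb da db h1' h2' hnear hq1 hq2
  · refine Good.swap_right (A := A) ?_ hcd.symm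
    refine A.r_near_open hL ha hb h da db ca cb
      ((A.above_comm (Ne.symm da) (Ne.symm ca) hcd.symm).mpr h1') ?_ ?_ hq1 hq2
    · rw [A.above_comm (Ne.symm db) (Ne.symm cb) hcd.symm]; exact h2'
    · intro κ hκ
      obtain ⟨g1, g2, g3⟩ := hnear κ hκ
      refine ⟨g2, g1, ?_⟩
      rw [A.above_comm g2 g1 hcd.symm]; exact g3

end Arr

end Pool.Agent.W5h16.Pseudo
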