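import Pool.Agent.W5h16.Pseudo.Rt

/-!
# Distance bounds for vertices in the right sector
-/

namespace Pool.Agent.W5h16.Pseudo

open Finset
open scoped Classical

namespace Arr

variable {ι V : Type*} (A : Arr ι V)

/-- steep lines passing above the vertex `(a,b)` -/
noncomputable def up [Fintype ι] (L : Finset ι) (a b : ι) : Finset ι :=
  univ.filter (fun κ => κ ∉ L ∧ κ ≠ a ∧ κ ≠ b ∧ ¬ A.Above κ a b)

/-- flat lines passing below the vertex `(a,b)` -/
noncomputable def dn [Fintype ι] (L : Finset ι) (a b : ι) : Finset ι :=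
  univ.filter (fun κ => κ ∈ L ∧ κ ≠ a ∧ κ ≠ b ∧ A.Above κ a b)

lemma mem_up [Fintype ι] {L : Finset ι} {a b κ : ι} :
    κ ∈ A.up L a b ↔ κ ∉ L ∧ κ ≠ a ∧ κ ≠ b ∧ ¬ A.Above κ a b := by
  unfold up; simp only [Finset.mem_filter, Finset.mem_univ, true_and]

lemma mem_dn [Fintype ι] {L : Finset ι} {a b κ : ι} :
    κ ∈ A.dn L a b ↔ κ ∈ L ∧ κ ≠ a ∧ κ ≠ b ∧ A.Above κ a b := by
  unfold dn; simp only [Finset.mem_filter, Finset.mem_univ, true_and]

/-- the distance from `(a,b)` to `(c,d)` is at most `n - 2 - q` -/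
def Good [Fintype ι] (q : ℕ) (a b c d : ι) : Prop :=
  ∃ m : ℕ, A.G.edist (A.vtx a b) (A.vtx c d) ≤ (m : ℕ∞) ∧ m + q + 2 ≤ Fintype.card ι

lemma good_of_card [Fintype ι] {a b c d : ι} {q t : ℕ} (T X S : Finset ι)
    (h : A.G.edist (A.vtx a b) (A.vtx c d) ≤ ((t + T.card : ℕ) : ℕ∞)) (hS : t + 2 ≤ S.card)
    (hTS : ∀ κ ∈ T, κ ∉ S) (hXS : ∀ κ ∈ X, κ ∉ S) (hTX : ∀ κ ∈ T, κ ∉ X) (hq : q ≤ X.card) :
    A.Good q a b c d := by
  refine ⟨t + T.card, h, ?_⟩
  have h1 : Disjoint T X := Finset.disjoint_left.mpr hTX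
  have h2 : Disjoint (T ∪ X) S := by
    rw [Finset.disjoint_union_left]
    exact ⟨Finset.disjoint_left.mpr hTS, Finset.disjoint_left.mpr hXS⟩
  have h3 := Finset.card_le_univ ((T ∪ X) ∪ S)
  rw [Finset.card_union_of_disjoint h2, Finset.card_union_of_disjoint h1] at h3
  omega

lemma card_four {a b c d : ι} (h1 : a ≠ b) (h2 : a ≠ c) (h3 : a ≠ d) (h4 : b ≠ c) (h5 : b ≠ d)
    (h6 : c ≠ d) : ({a, b, c, d} : Finset ι).card = 4 := by
  rw [Finset.card_insert_of_notMem, Finset.card_insert_of_notMem, Finset.card_pair h6]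
  · simp [h4, h5]
  · simp [h1, h2, h3]

/-- The lower path `(a,b) → (a,f) → (f,f')`. -/
lemma below_path [Fintype ι] {L : Finset ι} (hL : ∀ i ∈ L, ∀ j ∉ L, A.sl i < A.sl j)
    {a b f f' : ι} {q : ℕ} (ha : a ∈ L) (hb : b ∉ L) (haf : a ≠ f) (haf' : a ≠ f') (hbf : b ≠ f)
    (hbf' : b ≠ f') (hff' : f ≠ f') (hp : A.pos a b < A.pos a f) (hv : ¬ A.Above b f f')
    (H2 : A.Above f' a f ↔ A.Above f' a b) (hq : q ≤ (A.up L a b).card)
    (hnear : ∀ κ ∈ A.up L a b, κ ≠ f ∧ κ ≠ f' ∧ ¬ A.Above κ f f') : A.Good q a b f f' := by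
  have hab := hL a ha b hb
  have hne := A.ne_of_sl_lt hab
  have H1 : A.Above b a f ↔ A.Above b f f' := by
    have : ¬ A.Above b a f := by
      rw [A.above_of_gt hab haf.symm hbf.symm]; exact not_lt_of_gt hp
    simp [this, hv]
  have h := A.tri f f' hff' _ a b hne haf haf' hbf hbf' H1 H2 rfl
  refine A.good_of_card (A.touch a b f f') (A.up L a b) {a, b, f, f'} h
    (by rw [card_four hne haf haf' hbf hbf' hff']) ?_ ?_ ?_ hq
  · intro κ hκ
    rw [mem_touch] at hκ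
    simp [hκ.1, hκ.2.1, hκ.2.2.1, hκ.2.2.2.1]
  · intro κ hκ
    have h1 := hnear κ hκ
    rw [mem_up] at hκ
    simp [hκ.2.1, hκ.2.2.1, h1.1, h1.2.1]
  · intro κ hκ hκ'
    have h1 := hnear κ hκ'
    rw [mem_up] at hκ'
    obtain ⟨g1, g2, g3, g4⟩ := hκ'
    have hs := hL a ha κ g1
    have g5 : ¬ A.Above κ a f := by
      rw [A.above_of_gt hs haf.symm h1.1.symm]
      rw [A.above_of_gt hs hne.symm g3.symm] at g4
      intro h; exact g4 (hp.trans h)
    have g6 : ¬ A.Above κ f a := by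
      rw [A.above_comm h1.1 g2 haf.symm]; exact g5
    rw [mem_touch] at hκ
    obtain ⟨-, -, -, -, h⟩ := hκ
    simp only [g4, g5, g6, h1.2.2] at h
    simp at h

/-- The upper path `(b,a) → (b,d) → (d,c)` when no flat line separates from below. -/
lemma above_path [Fintype ι] {L : Finset ι} (hL : ∀ i ∈ L, ∀ j ∉ L, A.sl i < A.sl j)
    {a b c d : ι} {q : ℕ} (ha : a ∈ L) (hb : b ∉ L) (hac : a ≠ c) (had : a ≠ d) (hbc : b ≠ c)
    (hd : d ∈ L) (hcd : A.sl c < A.sl d) (hva : A.Above a c d) (hvb : ¬ A.Above b c d)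
    (huc : ¬ A.Above c a b) (hud : ¬ A.Above d a b) (hq : q ≤ (A.dn L a b).card)
    (hM : ∀ κ ∈ A.dn L a b, A.Above κ c d) : A.Good q b a d c := by
  have hab := hL a ha b hb
  have hne := A.ne_of_sl_lt hab
  have hdb := hL d hd b hb
  have hnd := A.ne_of_sl_lt hdb
  have hncd := A.ne_of_sl_lt hcd
  have p1 : A.pos b a < A.pos b d := by
    rw [A.above_comm had.symm hnd hne, A.above_of_lt _ hdb, not_lt] at hud
    exact lt_of_le_of_ne hud (A.pos_inj b a d hne hnd had)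
  have hvb' : ¬ A.Above b d c := by
    rw [A.above_comm hnd.symm hbc hncd.symm]; exact hvb
  have p2 : A.pos d b < A.pos d c := by
    rw [A.above_of_gt hdb hncd hbc.symm, not_lt] at hvb'
    exact lt_of_le_of_ne hvb' (A.pos_inj d b c hnd.symm hncd hbc)
  have H1 : A.Above a b d ↔ A.Above a d c := by
    have h1 : A.Above a b d := (A.above_of_lt _ hab).mpr p1
    have h2 : A.Above a d c := (A.above_comm had hac hncd.symm).mpr hva
    simp [h1, h2]
  have H2 : A.Above c b d ↔ A.Above c b a := by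
    have h1 : ¬ A.Above c b d := by
      rw [A.above_comm hbc.symm hncd hnd.symm, A.above_of_lt _ hcd]
      exact not_lt_of_gt p2
    have h2 : ¬ A.Above c b a := by
      rw [A.above_comm hbc.symm hac.symm hne.symm]; exact huc
    simp [h1, h2]
  have h := A.tri d c hncd.symm _ b a hne.symm hnd.symm hbc had hac H1 H2 rfl
  refine A.good_of_card (A.touch b a d c) (A.dn L a b) {a, b, c, d} h
    (by rw [card_four hne hac had hbc hnd.symm hncd]) ?_ ?_ ?_ hq
  · intro κ hκ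
    rw [mem_touch] at hκ
    simp [hκ.1, hκ.2.1, hκ.2.2.1, hκ.2.2.2.1]
  · intro κ hκ
    rw [mem_dn] at hκ
    have h1 : κ ≠ c := by rintro rfl; exact huc hκ.2.2.2
    have h2 : κ ≠ d := by rintro rfl; exact hud hκ.2.2.2
    simp [hκ.2.1, hκ.2.2.1, h1, h2]
  · intro κ hκ hκ'
    have h1 := hM κ hκ'
    rw [mem_dn] at hκ'
    obtain ⟨g1, g2, g3, g4⟩ := hκ'
    have hs := hL κ g1 b hb
    have hκc : κ ≠ c := by rintro rfl; exact huc g4
    have hκd : κ ≠ d := by rintro rfl; exact hud g4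
    have g5 : A.Above κ b a := (A.above_comm g3 g2 hne.symm).mpr g4
    have g6 : A.Above κ b d := by
      rw [A.above_of_lt _ hs] at g5 ⊢
      exact g5.trans p1
    have g7 : A.Above κ d b := (A.above_comm hκd g3 hnd).mpr g6
    have g8 : A.Above κ d c := (A.above_comm hκd hκc hncd.symm).mpr h1
    rw [mem_touch] at hκ
    obtain ⟨-, -, -, -, h⟩ := hκ
    simp only [g5, g6, g7, g8] at h
    simp at h

end Arr

end Pool.Agent.W5h16.Pseudo
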