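import Pool.Agent.W5h16.Pseudo.Basic

/-!
# to the right of for vertices of a combinatorial arrangement
-/

namespace Pool.Agent.W5h16.Pseudo

open Finset
open scoped Classical

namespace Arr

variable {ι V : Type*} (A : Arr ι V)

/-- the vertex `(i,j)` is weakly above line `l` -/
def WA (l i j : ι) : Prop := l = i ∨ l = j ∨ A.Above l i j

/-- the vertex `(i,j)` is weakly below line `l` -/
def WB (l i j : ι) : Prop := l = i ∨ l = j ∨ ¬ A.Above l i j

lemma wa_comm {l i j : ι} (h : i ≠ j) : A.WA l i j ↔ A.WA l j i := by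
  unfold WA
  by_cases h1 : l = i
  · simp [h1]
  by_cases h2 : l = j
  · simp [h2]
  simp [h1, h2, A.above_comm h1 h2 h]

lemma wb_comm {l i j : ι} (h : i ≠ j) : A.WB l i j ↔ A.WB l j i := by
  unfold WB
  by_cases h1 : l = i
  · simp [h1]
  by_cases h2 : l = j
  · simp [h2]
  simp [h1, h2, A.above_comm h1 h2 h]

lemma wa_gt {l i j : ι} (h : A.sl i < A.sl l) (hj : j ≠ i) :
    A.WA l i j ↔ A.pos i j ≤ A.pos i l := by
  have hne := (A.ne_of_sl_lt h).symm
  unfold WA
  by_cases h2 : l = j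
  · simp [h2]
  · have := A.above_of_gt h hj (Ne.symm h2)
    have h3 := A.pos_inj i j l hj hne (Ne.symm h2)
    simp only [hne, h2, false_or, this]
    exact ⟨le_of_lt, fun h => lt_of_le_of_ne h h3⟩

lemma wb_gt {l i j : ι} (h : A.sl i < A.sl l) (hj : j ≠ i) :
    A.WB l i j ↔ A.pos i l ≤ A.pos i j := by
  have hne := (A.ne_of_sl_lt h).symm
  unfold WB
  by_cases h2 : l = j
  · simp [h2]
  · have := A.above_of_gt h hj (Ne.symm h2)
    simp only [hne, h2, false_or, this, not_lt]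

lemma wa_lt {l i j : ι} (h : A.sl l < A.sl i) (hj : j ≠ i) :
    A.WA l i j ↔ A.pos i l ≤ A.pos i j := by
  have hne := (A.ne_of_sl_lt h)
  unfold WA
  by_cases h2 : l = j
  · simp [h2]
  · have := A.above_of_lt j h
    have h3 := A.pos_inj i l j hne hj h2
    simp only [hne, h2, false_or, this]
    exact ⟨le_of_lt, fun h => lt_of_le_of_ne h h3⟩

lemma wb_lt {l i j : ι} (h : A.sl l < A.sl i) (_hj : j ≠ i) :
    A.WB l i j ↔ A.pos i j ≤ A.pos i l := by
  have hne := (A.ne_of_sl_lt h)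
  unfold WB
  by_cases h2 : l = j
  · simp [h2]
  · have := A.above_of_lt j h
    simp only [hne, h2, false_or, this, not_lt]

lemma mon1 {κ i j k : ι} (hκ : κ ≠ i) (hj : j ≠ i) (hk : k ≠ i) (h : A.pos i j < A.pos i k)
    (h1 : A.WA κ i j) (h2 : A.WB κ i k) : A.sl i < A.sl κ := by
  rcases A.sl_lt_or_gt hκ with h3 | h3
  · rw [A.wa_lt h3 hj] at h1
    rw [A.wb_lt h3 hk] at h2
    linarith
  · exact h3

lemma mon2 {κ i j k : ι} (hκ : κ ≠ i) (hj : j ≠ i) (hk : k ≠ i) (h : A.pos i j < A.pos i k)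
    (h1 : A.WB κ i j) (h2 : A.WA κ i k) : A.sl κ < A.sl i := by
  rcases A.sl_lt_or_gt hκ with h3 | h3
  · exact h3
  · rw [A.wb_gt h3 hj] at h1
    rw [A.wa_gt h3 hk] at h2
    linarith

/-- `(c,d)` lies to the right of `(a,b)` -/
def Rt (a b c d : ι) : Prop := ∀ k k', A.sl k < A.sl k' → A.WA k a b → A.WB k' a b →
  ¬ (A.WA k' c d ∧ A.WB k c d)

lemma rt_comm_left {a b c d : ι} (h : a ≠ b) (hr : A.Rt a b c d) : A.Rt b a c d := by
  intro k k' h1 h2 h3
  exact hr k k' h1 ((A.wa_comm h).mpr h2) ((A.wb_comm h).mpr h3)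

lemma rt_comm_right {a b c d : ι} (h : c ≠ d) (hr : A.Rt a b c d) : A.Rt a b d c := by
  rintro k k' h1 h2 h3 ⟨h4, h5⟩
  exact hr k k' h1 h2 h3 ⟨(A.wa_comm h).mpr h4, (A.wb_comm h).mpr h5⟩

lemma chain1 {i j k : ι} (hj : j ≠ i) (hk : k ≠ i) (h : A.pos i j < A.pos i k) :
    A.Rt i j i k := by
  rintro κ κ' hlt h1 h2 ⟨h3, h4⟩
  by_cases e1 : κ = i
  · by_cases e2 : κ' = i
    · rw [e1, e2] at hlt; exact lt_irrefl _ hlt
    · have := A.mon2 e2 hj hk h h2 h3
      rw [e1] at hlt; linarith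
  · have g1 := A.mon1 e1 hj hk h h1 h4
    by_cases e2 : κ' = i
    · rw [e2] at hlt; linarith
    · have := A.mon2 e2 hj hk h h2 h3
      linarith

lemma chain2 {i j m k : ι} (hj : j ≠ i) (hm : m ≠ i) (hk : k ≠ m)
    (h : A.pos i j < A.pos i m) (h' : A.pos m i < A.pos m k) : A.Rt i j m k := by
  rintro κ κ' hlt h1 h2 ⟨h3, h4⟩
  have c1 := A.chain1 hj hm h κ κ' hlt h1 h2
  have c2 := fun x y => A.chain1 hm.symm hk h' κ κ' hlt x y ⟨h3, h4⟩
  -- status at w = (i,m)
  have hWA : ∀ l, A.WA l i m ↔ A.WA l m i := fun l => A.wa_comm hm.symm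
  have hWB : ∀ l, A.WB l i m ↔ A.WB l m i := fun l => A.wb_comm hm.symm
  have tot : ∀ l, A.WA l i m ∨ A.WB l i m := by
    intro l; unfold WA WB; tauto
  by_cases s1 : A.WA κ i m
  · -- κ weakly below w, so κ' is not weakly above w
    have s2 : ¬ A.WB κ' i m := by
      intro hh
      exact c2 ((hWA κ).mp s1) ((hWB κ').mp hh)
    have s2' : A.WA κ' i m := (tot κ').resolve_right s2
    have s3 : ¬ A.WB κ i m := fun hh => c1 ⟨s2', hh⟩
    have n1 : κ ≠ i ∧ κ ≠ m ∧ A.Above κ i m := by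
      unfold WB at s3; tauto
    have n2 : κ' ≠ i ∧ κ' ≠ m ∧ A.Above κ' i m := by
      unfold WB at s2; tauto
    have g1 : A.sl κ' < A.sl i := A.mon2 n2.1 hj hm h h2 s2'
    have g2 : A.sl m < A.sl κ := A.mon1 n1.2.1 hm.symm hk h' ((hWA κ).mp s1) h4
    have p1 := (A.wa_lt (hlt.trans g1) hj).mp h1
    have p2 := (A.wb_lt g1 hj).mp h2
    have hne : κ ≠ κ' := A.ne_of_sl_lt hlt
    have p3 : A.pos i κ < A.pos i κ' :=
      lt_of_le_of_ne (p1.trans p2) (A.pos_inj i κ κ' n1.1 n2.1 hne)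
    have p4 : A.pos i κ' < A.pos i m := by
      by_contra hcon
      exact s2 ((A.wb_lt g1 hm).mpr (not_lt.mp hcon))
    have q1 := (A.wa_gt (g2.trans hlt) hk).mp h3
    have q2 := (A.wb_gt g2 hk).mp h4
    have q3 : A.pos m κ < A.pos m κ' :=
      lt_of_le_of_ne (q2.trans q1) (A.pos_inj m κ κ' n1.2.1 n2.2.1 hne)
    -- on line κ'
    have t1 : A.pos κ' m < A.pos κ' κ := by
      have e := A.above_comm n1.2.1 hne n2.2.1.symm
      rw [A.above_of_gt g2 n2.2.1 hne.symm, A.above_of_lt _ hlt] at e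
      have : ¬ A.pos κ' κ < A.pos κ' m := fun hh => absurd (e.mpr hh) (not_lt_of_gt q3)
      exact lt_of_le_of_ne (not_lt.mp this) (A.pos_inj κ' m κ n2.2.1.symm hne n1.2.1.symm)
    have t2 : A.pos κ' κ < A.pos κ' i := by
      have e := A.above_comm n1.1 hne n2.1.symm
      rw [A.above_of_lt _ (hlt.trans g1), A.above_of_lt _ hlt] at e
      exact e.mp p3
    have t3 : A.pos κ' i < A.pos κ' m := by
      have e := A.above_comm hm n2.2.1.symm n2.1.symm
      rw [A.above_of_lt _ ((g2.trans hlt).trans g1), A.above_of_lt _ (g2.trans hlt)] at e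
      have : ¬ A.pos κ' m < A.pos κ' i := fun hh => absurd (e.mpr hh) (not_lt_of_gt p4)
      exact lt_of_le_of_ne (not_lt.mp this) (A.pos_inj κ' i m n2.1.symm n2.2.1.symm hm.symm)
    linarith
  · have s1' : A.WB κ i m := (tot κ).resolve_left s1
    have s2 : ¬ A.WA κ' i m := fun hh => c1 ⟨hh, s1'⟩
    have s2' : A.WB κ' i m := (tot κ').resolve_left s2
    have n1 : κ ≠ i ∧ κ ≠ m ∧ ¬ A.Above κ i m := by
      unfold WA at s1; tauto
    have n2 : κ' ≠ i ∧ κ' ≠ m ∧ ¬ A.Above κ' i m := by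
      unfold WA at s2; tauto
    have g1 : A.sl i < A.sl κ := A.mon1 n1.1 hj hm h h1 s1'
    have g2 : A.sl κ' < A.sl m := A.mon2 n2.2.1 hm.symm hk h' ((hWB κ').mp s2') h3
    have p1 := (A.wa_gt g1 hj).mp h1
    have p2 := (A.wb_gt (g1.trans hlt) hj).mp h2
    have hne : κ ≠ κ' := A.ne_of_sl_lt hlt
    have p3 : A.pos i κ' < A.pos i κ :=
      lt_of_le_of_ne (p2.trans p1) (A.pos_inj i κ' κ n2.1 n1.1 hne.symm)
    have p4 : A.pos i κ < A.pos i m := by
      by_contra hcon
      exact s1 ((A.wa_gt g1 hm).mpr (not_lt.mp hcon))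
    have q1 := (A.wa_lt g2 hk).mp h3
    have q2 := (A.wb_lt (hlt.trans g2) hk).mp h4
    have q3 : A.pos m κ' < A.pos m κ :=
      lt_of_le_of_ne (q1.trans q2) (A.pos_inj m κ' κ n2.2.1 n1.2.1 hne.symm)
    -- on line κ
    have t1 : A.pos κ κ' < A.pos κ i := by
      have e := A.above_comm n2.1 hne.symm n1.1.symm
      rw [A.above_of_gt (g1.trans hlt) n1.1 hne, A.above_of_gt hlt n1.1.symm n2.1.symm] at e
      have : ¬ A.pos κ i < A.pos κ κ' := fun hh => absurd (e.mpr hh) (not_lt_of_gt p3)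
      exact lt_of_le_of_ne (not_lt.mp this) (A.pos_inj κ κ' i hne.symm n1.1.symm n2.1)
    have t2 : A.pos κ m < A.pos κ κ' := by
      have e := A.above_comm n2.2.1 hne.symm n1.2.1.symm
      rw [A.above_of_lt _ g2, A.above_of_gt hlt n1.2.1.symm n2.2.1.symm] at e
      exact e.mp q3
    have t3 : A.pos κ i < A.pos κ m := by
      have e := A.above_comm hm n1.2.1.symm n1.1.symm
      rw [A.above_of_gt ((g1.trans hlt).trans g2) n1.1 n1.2.1,
        A.above_of_gt (hlt.trans g2) n1.1.symm hm.symm] at e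
      exact e.mp p4
    linarith

/-- in the right sector, a line through `v` passing below `u` is steeper than `a` -/
lemma sec1 {a b x y : ι} (hab : A.sl a < A.sl b) (hxy : x ≠ y) (hxa : x ≠ a) (hxb : x ≠ b)
    (hya : y ≠ a) (hyb : y ≠ b) (h1 : A.Above a x y) (h2 : ¬ A.Above b x y)
    (h3 : A.Above x a b) : A.sl a < A.sl x := by
  rcases A.sl_lt_or_gt hxa with h | h
  · exfalso
    have hxb' := h.trans hab
    have p1 := (A.above_of_lt _ h).mp h3
    have p2 := (A.above_of_gt h hxy.symm hya).mp h1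
    have p3 : A.pos x b < A.pos x y := by
      have := fun hh => h2 ((A.above_of_gt hxb' hxy.symm hyb).mpr hh)
      exact lt_of_le_of_ne (not_lt.mp this) (A.pos_inj x b y hxb.symm hxy.symm hyb.symm)
    have p4 := (A.above_of_gt hab hxa hxb).mpr p1
    rw [A.above_comm (A.ne_of_sl_lt hab).symm hxb.symm hxa.symm,
      A.above_of_gt hxb' hxa.symm (A.ne_of_sl_lt hab)] at p4
    linarith
  · exact h

lemma sec2 {a b x y : ι} (hab : A.sl a < A.sl b) (hxy : x ≠ y) (hxa : x ≠ a) (hxb : x ≠ b)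
    (_hya : y ≠ a) (hyb : y ≠ b) (h1 : A.Above a x y) (h2 : ¬ A.Above b x y)
    (h3 : ¬ A.Above x a b) : A.sl x < A.sl b := by
  rcases A.sl_lt_or_gt hxb with h | h
  · exact h
  · exfalso
    have hxa' := hab.trans h
    have hne := A.ne_of_sl_lt hab
    rw [A.above_comm hxa hxb hne, A.above_of_gt h hne hxa.symm] at h3
    have p0 : A.pos b x < A.pos b a :=
      lt_of_le_of_ne (not_lt.mp h3) (A.pos_inj b x a hxb hne hxa)
    have p1 := (A.above_of_lt _ hxa').mp h1
    rw [A.above_of_lt _ h, not_lt] at h2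
    have p2 : A.pos x y < A.pos x b :=
      lt_of_le_of_ne h2 (A.pos_inj x y b hxy.symm hxb.symm hyb)
    have e := A.above_comm hne hxa.symm hxb.symm
    rw [A.above_of_lt _ hab, A.above_of_lt _ hxa'] at e
    have := e.mpr (p1.trans p2)
    linarith

/-- a vertex in the closed right sector lies to the right -/
lemma rt_of_sector {a b c d : ι} (hab : A.sl a < A.sl b) (hcd : c ≠ d)
    (hne : ¬ ((c = a ∧ d = b) ∨ (c = b ∧ d = a))) (h1 : A.WA a c d) (h2 : A.WB b c d) :
    A.Rt a b c d := by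
  have hnab := A.ne_of_sl_lt hab
  -- `v` on the line `a`
  have onA : ∀ x, x ≠ a → x ≠ b → A.WB b a x → A.Rt a b a x := by
    intro x hxa hxb h
    have h' : ¬ A.Above b a x := by
      unfold WB at h
      rcases h with h | h | h
      · exact absurd h.symm hnab
      · exact absurd h.symm hxb
      · exact h
    apply A.chain1 hnab.symm hxa
    by_contra hcon
    apply h'
    rw [A.above_of_gt hab hxa hxb]
    exact lt_of_le_of_ne (not_lt.mp hcon) (A.pos_inj a x b hxa hnab.symm hxb)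
  have onB : ∀ x, x ≠ a → x ≠ b → A.WA a b x → A.Rt a b b x := by
    intro x hxa hxb h
    have h' : A.Above a b x := by
      unfold WA at h
      rcases h with h | h | h
      · exact absurd h hnab
      · exact absurd h.symm hxa
      · exact h
    apply A.rt_comm_left hnab.symm
    apply A.chain1 hnab hxb
    exact (A.above_of_lt _ hab).mp h'
  by_cases ca : c = a
  · subst ca
    have hdb : d ≠ b := fun h => hne (Or.inl ⟨rfl, h⟩)
    exact onA d hcd.symm hdb h2
  by_cases da : d = a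
  · subst da
    have hcb : c ≠ b := fun h => hne (Or.inr ⟨h, rfl⟩)
    exact A.rt_comm_right hcd.symm (onA c hcd hcb ((A.wb_comm hcd).mp h2))
  by_cases cb : c = b
  · subst cb
    exact onB d da hcd.symm h1
  by_cases db : d = b
  · subst db
    exact A.rt_comm_right hcd.symm (onB c ca hcd ((A.wa_comm hcd).mp h1))
  have h1' : A.Above a c d := by
    unfold WA at h1
    rcases h1 with h | h | h
    · exact absurd h.symm ca
    · exact absurd h.symm da
    · exact h
  have h2' : ¬ A.Above b c d := by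
    unfold WB at h2
    rcases h2 with h | h | h
    · exact absurd h.symm cb
    · exact absurd h.symm db
    · exact h
  by_cases h3 : A.Above c a b
  · have h4 := A.sec1 hab hcd ca cb da db h1' h2' h3
    refine A.chain2 hnab.symm ca hcd.symm ?_ ?_
    · exact (A.above_of_gt h4 hnab.symm (Ne.symm cb)).mp h3
    · exact (A.above_of_lt _ h4).mp h1'
  · have h4 := A.sec2 hab hcd ca cb da db h1' h2' h3
    apply A.rt_comm_left hnab.symm
    refine A.chain2 hnab cb hcd.symm ?_ ?_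
    · rw [A.above_comm ca cb hnab, A.above_of_lt _ h4, not_lt] at h3
      exact lt_of_le_of_ne h3 (A.pos_inj b a c hnab cb (Ne.symm ca))
    · by_contra hcon
      apply h2'
      rw [A.above_of_gt h4 hcd.symm db]
      exact lt_of_le_of_ne (not_lt.mp hcon) (A.pos_inj c d b hcd.symm (Ne.symm cb) db)

end Arr

end Pool.Agent.W5h16.Pseudo
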