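import Pool.Agent.W5h16.Pseudo.Quad

/-!
# Reflections and rotations of a combinatorial arrangement
-/

namespace Pool.Agent.W5h16.Pseudo

open Finset
open scoped Classical

namespace Arr

variable {ι V : Type*} (A : Arr ι V)

lemma neg_lt_iff {i l : ι} (h : l ≠ i) : (- A.sl l < - A.sl i) ↔ ¬ (A.sl l < A.sl i) := by
  rw [neg_lt_neg_iff, not_lt]
  exact ⟨le_of_lt, fun h' => lt_of_le_of_ne h' (A.sl_inj l i h).symm⟩

lemma neg_pos_lt_iff {i j l : ι} (h1 : l ≠ i) (h2 : j ≠ i) (h3 : l ≠ j) :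
    (- A.pos i l < - A.pos i j) ↔ ¬ (A.pos i l < A.pos i j) := by
  rw [neg_lt_neg_iff, not_lt]
  exact ⟨le_of_lt, fun h' => lt_of_le_of_ne h' (A.pos_inj i l j h1 h2 h3).symm⟩

/-- reflection in a horizontal line -/
def reflY : Arr ι V where
  sl i := - A.sl i
  pos := A.pos
  G := A.G
  vtx := A.vtx
  sl_inj i j h h' := A.sl_inj i j h (neg_injective h')
  pos_inj := A.pos_inj
  symm l i j h1 h2 h3 := by
    have := A.symm l i j h1 h2 h3
    rw [A.neg_lt_iff h1, A.neg_lt_iff h2]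
    tauto
  vtx_comm := A.vtx_comm
  adj := A.adj

lemma reflY_above {l i j : ι} (h : l ≠ i) : A.reflY.Above l i j ↔ ¬ A.Above l i j := by
  show (A.pos i l < A.pos i j ↔ - A.sl l < - A.sl i) ↔ ¬ (A.pos i l < A.pos i j ↔ A.sl l < A.sl i)
  rw [A.neg_lt_iff h]
  tauto

/-- reflection in a vertical line -/
def reflX : Arr ι V where
  sl i := - A.sl i
  pos i j := - A.pos i j
  G := A.G
  vtx := A.vtx
  sl_inj i j h h' := A.sl_inj i j h (neg_injective h')
  pos_inj i j k h1 h2 h3 h' := A.pos_inj i j k h1 h2 h3 (neg_injective h')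
  symm l i j h1 h2 h3 := by
    have := A.symm l i j h1 h2 h3
    rw [A.neg_lt_iff h1, A.neg_lt_iff h2, A.neg_pos_lt_iff h1 h3.symm h2,
      A.neg_pos_lt_iff h2 h3 h1]
    tauto
  vtx_comm := A.vtx_comm
  adj i j k h1 h2 h3 h := by
    apply A.adj i j k h1 h2 h3
    intro l hl
    have := h l hl
    simp only [neg_lt_neg_iff] at this
    tauto

lemma reflX_above {l i j : ι} (h : l ≠ i) (h2 : j ≠ i) (h3 : l ≠ j) :
    A.reflX.Above l i j ↔ A.Above l i j := by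
  show (- A.pos i l < - A.pos i j ↔ - A.sl l < - A.sl i) ↔ (A.pos i l < A.pos i j ↔ A.sl l < A.sl i)
  rw [A.neg_lt_iff h, A.neg_pos_lt_iff h h2 h3]
  tauto

/-- the slope function after rotation -/
noncomputable def rotSl (L : Finset ι) (C : ℝ) (i : ι) : ℝ := if i ∈ L then A.sl i + C else A.sl i

/-- the positions after rotation -/
noncomputable def rotPos (L : Finset ι) (i j : ι) : ℝ := if i ∈ L then - A.pos i j else A.pos i j

lemma rot_core {L : Finset ι} {C : ℝ} (hL : ∀ i ∈ L, ∀ j ∉ L, A.sl i < A.sl j)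
    (hC : ∀ i ∈ L, ∀ j ∉ L, A.sl j < A.sl i + C) {l i j : ι} (h1 : l ≠ i) (h2 : j ≠ i)
    (h3 : l ≠ j) :
    (A.rotPos L i l < A.rotPos L i j ↔ A.rotSl L C l < A.rotSl L C i) ↔
      (if l ∈ L then ¬ A.Above l i j else A.Above l i j) := by
  unfold rotPos rotSl Above
  have e := A.neg_pos_lt_iff h1 h2 h3
  by_cases hl : l ∈ L <;> by_cases hi : i ∈ L
  · simp only [hl, hi, if_true, add_lt_add_iff_right]
    rw [e]; tauto
  · have g1 := hL l hl i hi
    have g2 := not_lt_of_gt (hC l hl i hi)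
    simp only [hl, hi, if_true, if_false, g1, g2]
    tauto
  · have g1 := not_lt_of_gt (hL i hi l hl)
    have g2 := hC i hi l hl
    simp only [hl, hi, if_true, if_false, g1, g2]
    rw [e]; tauto
  · simp only [hl, hi, if_false]

/-- rotation: the flat lines `L` are reversed and become the steepest ones -/
noncomputable def rot (L : Finset ι) (C : ℝ) (hL : ∀ i ∈ L, ∀ j ∉ L, A.sl i < A.sl j)
    (hC : ∀ i ∈ L, ∀ j ∉ L, A.sl j < A.sl i + C) : Arr ι V where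
  sl := A.rotSl L C
  pos := A.rotPos L
  G := A.G
  vtx := A.vtx
  sl_inj i j h := by
    unfold rotSl
    have h0 := A.sl_inj i j h
    by_cases hi : i ∈ L <;> by_cases hj : j ∈ L
    · simp only [hi, hj, if_true]; intro h'; exact h0 (by linarith)
    · simp only [hi, hj, if_true, if_false]; exact (ne_of_lt (hC i hi j hj)).symm
    · simp only [hi, hj, if_true, if_false]; exact ne_of_lt (hC j hj i hi)
    · simp only [hi, hj, if_false]; exact h0
  pos_inj i j k h1 h2 h3 := by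
    unfold rotPos
    have h0 := A.pos_inj i j k h1 h2 h3
    by_cases hi : i ∈ L
    · simp only [hi, if_true]; intro h'; exact h0 (neg_injective h')
    · simp only [hi, if_false]; exact h0
  symm l i j h1 h2 h3 := by
    rw [A.rot_core hL hC h1 h3.symm h2, A.rot_core hL hC h2 h3 h1]
    have := A.above_comm h1 h2 h3
    split_ifs <;> tauto
  vtx_comm := A.vtx_comm
  adj i j k h1 h2 h3 h := by
    apply A.adj i j k h1 h2 h3
    intro l hl
    have := h l hl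
    unfold rotPos at this
    by_cases hi : i ∈ L
    · simp only [hi, if_true, neg_lt_neg_iff] at this
      tauto
    · simp only [hi, if_false] at this
      exact this

lemma rot_above {L : Finset ι} {C : ℝ} (hL : ∀ i ∈ L, ∀ j ∉ L, A.sl i < A.sl j)
    (hC : ∀ i ∈ L, ∀ j ∉ L, A.sl j < A.sl i + C) {l i j : ι} (h1 : l ≠ i) (h2 : j ≠ i)
    (h3 : l ≠ j) :
    (A.rot L C hL hC).Above l i j ↔ (if l ∈ L then ¬ A.Above l i j else A.Above l i j) :=
  A.rot_core hL hC h1 h2 h3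

lemma exists_C [Fintype ι] (L : Finset ι) : ∃ C : ℝ, ∀ i ∈ L, ∀ j ∉ L, A.sl j < A.sl i + C := by
  refine ⟨2 * ∑ i, |A.sl i| + 1, ?_⟩
  intro i _ j _
  have h1 : |A.sl i| ≤ ∑ i, |A.sl i| :=
    Finset.single_le_sum (f := fun i => |A.sl i|) (fun _ _ => abs_nonneg _) (Finset.mem_univ i)
  have h2 : |A.sl j| ≤ ∑ i, |A.sl i| :=
    Finset.single_le_sum (f := fun i => |A.sl i|) (fun _ _ => abs_nonneg _) (Finset.mem_univ j)
  have h3 := neg_abs_le (A.sl i)
  have h4 := le_abs_self (A.sl j)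
  linarith

lemma compl_cut [Fintype ι] {L : Finset ι} {f g : ι → ℝ} (h : ∀ i ∈ L, ∀ j ∉ L, f i < f j)
    (hg : ∀ i j, f i < f j → g j < g i) : ∀ i ∈ Lᶜ, ∀ j ∉ Lᶜ, g i < g j := by
  intro i hi j hj
  rw [Finset.mem_compl] at hi
  rw [Finset.mem_compl, not_not] at hj
  exact hg _ _ (h j hj i hi)

/-- flat lines above the vertex -/
noncomputable def am [Fintype ι] (L : Finset ι) (a b : ι) : Finset ι :=
  univ.filter (fun κ => κ ∈ L ∧ κ ≠ a ∧ κ ≠ b ∧ ¬ A.Above κ a b)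

/-- steep lines below the vertex -/
noncomputable def bp [Fintype ι] (L : Finset ι) (a b : ι) : Finset ι :=
  univ.filter (fun κ => κ ∉ L ∧ κ ≠ a ∧ κ ≠ b ∧ A.Above κ a b)

lemma mem_am [Fintype ι] {L : Finset ι} {a b κ : ι} :
    κ ∈ A.am L a b ↔ κ ∈ L ∧ κ ≠ a ∧ κ ≠ b ∧ ¬ A.Above κ a b := by
  unfold am; simp only [Finset.mem_filter, Finset.mem_univ, true_and]

lemma mem_bp [Fintype ι] {L : Finset ι} {a b κ : ι} :
    κ ∈ A.bp L a b ↔ κ ∉ L ∧ κ ≠ a ∧ κ ≠ b ∧ A.Above κ a b := by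
  unfold bp; simp only [Finset.mem_filter, Finset.mem_univ, true_and]

section transfer

variable [Fintype ι] {L : Finset ι} {a b : ι}

lemma up_reflY (hab : a ≠ b) : A.reflY.up Lᶜ b a = A.dn L a b := by
  ext κ
  rw [mem_up, mem_dn, Finset.mem_compl, not_not]
  constructor
  · rintro ⟨h1, h2, h3, h4⟩
    rw [A.reflY_above h2, not_not, A.above_comm h2 h3 hab.symm] at h4
    exact ⟨h1, h3, h2, h4⟩
  · rintro ⟨h1, h2, h3, h4⟩
    refine ⟨h1, h3, h2, ?_⟩
    rw [A.reflY_above h3, not_not, A.above_comm h3 h2 hab.symm]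
    exact h4

lemma dn_reflY (hab : a ≠ b) : A.reflY.dn Lᶜ b a = A.up L a b := by
  ext κ
  rw [mem_up, mem_dn, Finset.mem_compl]
  constructor
  · rintro ⟨h1, h2, h3, h4⟩
    rw [A.reflY_above h2, A.above_comm h2 h3 hab.symm] at h4
    exact ⟨h1, h3, h2, h4⟩
  · rintro ⟨h1, h2, h3, h4⟩
    refine ⟨h1, h3, h2, ?_⟩
    rw [A.reflY_above h3, A.above_comm h3 h2 hab.symm]
    exact h4

lemma up_reflX (hab : a ≠ b) : A.reflX.up Lᶜ b a = A.am L a b := by
  ext κ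
  rw [mem_up, mem_am, Finset.mem_compl, not_not]
  constructor
  · rintro ⟨h1, h2, h3, h4⟩
    rw [A.reflX_above h2 hab h3, A.above_comm h2 h3 hab.symm] at h4
    exact ⟨h1, h3, h2, h4⟩
  · rintro ⟨h1, h2, h3, h4⟩
    refine ⟨h1, h3, h2, ?_⟩
    rw [A.reflX_above h3 hab h2, A.above_comm h3 h2 hab.symm]
    exact h4

lemma dn_reflX (hab : a ≠ b) : A.reflX.dn Lᶜ b a = A.bp L a b := by
  ext κ
  rw [mem_dn, mem_bp, Finset.mem_compl]
  constructor
  · rintro ⟨h1, h2, h3, h4⟩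
    rw [A.reflX_above h2 hab h3, A.above_comm h2 h3 hab.symm] at h4
    exact ⟨h1, h3, h2, h4⟩
  · rintro ⟨h1, h2, h3, h4⟩
    refine ⟨h1, h3, h2, ?_⟩
    rw [A.reflX_above h3 hab h2, A.above_comm h3 h2 hab.symm]
    exact h4

lemma am_reflX (hab : a ≠ b) : A.reflX.am Lᶜ b a = A.up L a b := by
  ext κ
  rw [mem_am, mem_up, Finset.mem_compl]
  constructor
  · rintro ⟨h1, h2, h3, h4⟩
    rw [A.reflX_above h2 hab h3, A.above_comm h2 h3 hab.symm] at h4
    exact ⟨h1, h3, h2, h4⟩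
  · rintro ⟨h1, h2, h3, h4⟩
    refine ⟨h1, h3, h2, ?_⟩
    rw [A.reflX_above h3 hab h2, A.above_comm h3 h2 hab.symm]
    exact h4

lemma bp_reflX (hab : a ≠ b) : A.reflX.bp Lᶜ b a = A.dn L a b := by
  ext κ
  rw [mem_bp, mem_dn, Finset.mem_compl, not_not]
  constructor
  · rintro ⟨h1, h2, h3, h4⟩
    rw [A.reflX_above h2 hab h3, A.above_comm h2 h3 hab.symm] at h4
    exact ⟨h1, h3, h2, h4⟩
  · rintro ⟨h1, h2, h3, h4⟩
    refine ⟨h1, h3, h2, ?_⟩
    rw [A.reflX_above h3 hab h2, A.above_comm h3 h2 hab.symm]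
    exact h4

variable {C : ℝ} (hL : ∀ i ∈ L, ∀ j ∉ L, A.sl i < A.sl j)
    (hC : ∀ i ∈ L, ∀ j ∉ L, A.sl j < A.sl i + C)

omit [Fintype ι] in
lemma rot_above_mem {l i j : ι} (h1 : l ≠ i) (h2 : j ≠ i) (h3 : l ≠ j) (hl : l ∈ L) :
    (A.rot L C hL hC).Above l i j ↔ ¬ A.Above l i j := by
  rw [A.rot_above hL hC h1 h2 h3]; simp [hl]

omit [Fintype ι] in
lemma rot_above_not {l i j : ι} (h1 : l ≠ i) (h2 : j ≠ i) (h3 : l ≠ j) (hl : l ∉ L) :
    (A.rot L C hL hC).Above l i j ↔ A.Above l i j := by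
  rw [A.rot_above hL hC h1 h2 h3]; simp [hl]

lemma up_rot (hab : a ≠ b) : (A.rot L C hL hC).up Lᶜ b a = A.dn L a b := by
  ext κ
  rw [mem_up, mem_dn, Finset.mem_compl, not_not]
  constructor
  · rintro ⟨h1, h2, h3, h4⟩
    rw [A.rot_above_mem hL hC h2 hab h3 h1, not_not, A.above_comm h2 h3 hab.symm] at h4
    exact ⟨h1, h3, h2, h4⟩
  · rintro ⟨h1, h2, h3, h4⟩
    refine ⟨h1, h3, h2, ?_⟩
    rw [A.rot_above_mem hL hC h3 hab h2 h1, not_not, A.above_comm h3 h2 hab.symm]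
    exact h4

lemma dn_rot (hab : a ≠ b) : (A.rot L C hL hC).dn Lᶜ b a = A.bp L a b := by
  ext κ
  rw [mem_dn, mem_bp, Finset.mem_compl]
  constructor
  · rintro ⟨h1, h2, h3, h4⟩
    rw [A.rot_above_not hL hC h2 hab h3 h1, A.above_comm h2 h3 hab.symm] at h4
    exact ⟨h1, h3, h2, h4⟩
  · rintro ⟨h1, h2, h3, h4⟩
    refine ⟨h1, h3, h2, ?_⟩
    rw [A.rot_above_not hL hC h3 hab h2 h1, A.above_comm h3 h2 hab.symm]
    exact h4

lemma am_rot (hab : a ≠ b) : (A.rot L C hL hC).am Lᶜ b a = A.up L a b := by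
  ext κ
  rw [mem_am, mem_up, Finset.mem_compl]
  constructor
  · rintro ⟨h1, h2, h3, h4⟩
    rw [A.rot_above_not hL hC h2 hab h3 h1, A.above_comm h2 h3 hab.symm] at h4
    exact ⟨h1, h3, h2, h4⟩
  · rintro ⟨h1, h2, h3, h4⟩
    refine ⟨h1, h3, h2, ?_⟩
    rw [A.rot_above_not hL hC h3 hab h2 h1, A.above_comm h3 h2 hab.symm]
    exact h4

lemma bp_rot (hab : a ≠ b) : (A.rot L C hL hC).bp Lᶜ b a = A.am L a b := by
  ext κ
  rw [mem_bp, mem_am, Finset.mem_compl, not_not]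
  constructor
  · rintro ⟨h1, h2, h3, h4⟩
    rw [A.rot_above_mem hL hC h2 hab h3 h1, A.above_comm h2 h3 hab.symm] at h4
    exact ⟨h1, h3, h2, h4⟩
  · rintro ⟨h1, h2, h3, h4⟩
    refine ⟨h1, h3, h2, ?_⟩
    rw [A.rot_above_mem hL hC h3 hab h2 h1, A.above_comm h3 h2 hab.symm]
    exact h4

end transfer

end Arr

end Pool.Agent.W5h16.Pseudo
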