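import Pool.Agent.W5h16.Pseudo.RSector

/-!
# The three-line path
-/

namespace Pool.Agent.W5h16.Pseudo

open Finset
open scoped Classical

namespace Arr

variable {ι V : Type*} (A : Arr ι V)

lemma tr {κ i j k : ι} (hκ : κ ≠ i) (hj : j ≠ i) (hk : k ≠ i) (h : A.pos i j < A.pos i k) :
    (A.Above κ i j → ¬ A.Above κ i k → A.sl i < A.sl κ) ∧
    (¬ A.Above κ i j → A.Above κ i k → A.sl κ < A.sl i) :=
  ⟨fun h1 h2 => A.mon1 hκ hj hk h (Or.inr (Or.inr h1)) (Or.inr (Or.inr h2)),
   fun h1 h2 => A.mon2 hκ hj hk h (Or.inr (Or.inr h1)) (Or.inr (Or.inr h2))⟩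

lemma card_five {a b c d e : ι} (h1 : a ≠ b) (h2 : a ≠ c) (h3 : a ≠ d) (h3' : a ≠ e) (h4 : b ≠ c)
    (h5 : b ≠ d) (h5' : b ≠ e) (h6 : c ≠ d) (h6' : c ≠ e) (h7 : d ≠ e) :
    ({a, b, c, d, e} : Finset ι).card = 5 := by
  rw [Finset.card_insert_of_notMem, card_four h4 h5 h5' h6 h6' h7]
  simp [h1, h2, h3, h3']

lemma card_six {a b c d e f : ι} (h1 : a ≠ b) (h2 : a ≠ c) (h3 : a ≠ d) (h3' : a ≠ e)
    (h3'' : a ≠ f) (h4 : b ≠ c) (h5 : b ≠ d) (h5' : b ≠ e) (h5'' : b ≠ f) (h6 : c ≠ d)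
    (h6' : c ≠ e) (h6'' : c ≠ f) (h7 : d ≠ e) (h7' : d ≠ f) (h8 : e ≠ f) :
    ({a, b, c, d, e, f} : Finset ι).card = 6 := by
  rw [Finset.card_insert_of_notMem, card_five h4 h5 h5' h5'' h6 h6' h6'' h7 h7' h8]
  simp [h1, h2, h3, h3', h3'']

/-- The path `(a,b) → (a,m) → (m,h) → (h,d) → (d,c)`. -/
lemma z_path [Fintype ι] {L : Finset ι} (hL : ∀ i ∈ L, ∀ j ∉ L, A.sl i < A.sl j)
    {a b c d : ι} {q : ℕ} (ha : a ∈ L) (hb : b ∉ L) (hc : c ∈ L) (hd : d ∈ L)
    (hac : A.sl a < A.sl c) (hcd : A.sl c < A.sl d)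
    (hva : A.Above a c d) (hvb : ¬ A.Above b c d)
    (huc : ¬ A.Above c a b) (hud : ¬ A.Above d a b) (hRt : A.Rt a b c d)
    (hM : ∃ κ ∈ A.dn L a b, ¬ A.Above κ c d)
    (hnear : ∀ κ ∈ A.up L a b, κ ≠ c ∧ κ ≠ d ∧ ¬ A.Above κ c d)
    (hq : q ≤ (A.up L a b).card) : A.Good q a b c d := by
  have hab := hL a ha b hb
  have hcb := hL c hc b hb
  have hdb := hL d hd b hb
  have had := hac.trans hcd
  have nab := A.ne_of_sl_lt hab
  have nac := A.ne_of_sl_lt hac
  have nad := A.ne_of_sl_lt had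
  have ncd := A.ne_of_sl_lt hcd
  have ncb := A.ne_of_sl_lt hcb
  have ndb := A.ne_of_sl_lt hdb
  -- the separating line m
  obtain ⟨κ0, hκ0, hκ0'⟩ := hM
  obtain ⟨m, hm, hmin⟩ := Finset.exists_min_image
    (univ.filter (fun κ => κ ∈ A.dn L a b ∧ ¬ A.Above κ c d)) (fun κ => A.pos a κ)
    ⟨κ0, by simp only [Finset.mem_filter, Finset.mem_univ, true_and]; exact ⟨hκ0, hκ0'⟩⟩
  simp only [Finset.mem_filter, Finset.mem_univ, true_and] at hm hmin
  obtain ⟨hm1, hmv⟩ := hm
  rw [mem_dn] at hm1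
  obtain ⟨hmL, nma, nmb, hmu⟩ := hm1
  have nmc : m ≠ c := by rintro rfl; exact huc hmu
  have nmd : m ≠ d := by rintro rfl; exact hud hmu
  have hmb := hL m hmL b hb
  have ham : A.sl a < A.sl m := by
    rcases A.sl_lt_or_gt nma with h | h
    · exact absurd ⟨Or.inr (Or.inr hva), Or.inr (Or.inr hmv)⟩
        (hRt m a h (Or.inr (Or.inr hmu)) (Or.inl rfl))
    · exact h
  have hdm : A.sl d < A.sl m := by
    rcases A.sl_lt_or_gt nmd with h | h
    · exact absurd ⟨Or.inr (Or.inl rfl), Or.inr (Or.inr hmv)⟩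
        (hRt m d h (Or.inr (Or.inr hmu)) (Or.inr (Or.inr hud)))
    · exact h
  have hcm := hcd.trans hdm
  have p1 : A.pos a b < A.pos a m := (A.above_of_gt ham nab.symm nmb.symm).mp hmu
  have z1b : ¬ A.Above b a m := by
    rw [A.above_of_gt hab nma nmb]; exact not_lt_of_gt p1
  have z1d : ¬ A.Above d a m := by
    rw [A.above_of_gt had nma nmd]
    rw [A.above_of_gt had nab.symm ndb.symm] at hud
    intro h; exact hud (p1.trans h)
  have z1c : ¬ A.Above c a m := by
    rw [A.above_of_gt hac nma nmc]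
    rw [A.above_of_gt hac nab.symm ncb.symm] at huc
    intro h; exact huc (p1.trans h)
  have hmv' : ¬ A.Above m d c := by rw [A.above_comm nmd nmc ncd.symm]; exact hmv
  have p4 : A.pos d m < A.pos d c := by
    rw [A.above_of_gt hdm ncd nmc.symm, not_lt] at hmv'
    exact lt_of_le_of_ne hmv' (A.pos_inj d m c nmd ncd nmc)
  have p5 : A.pos m a < A.pos m d := by
    have h := z1d
    rw [A.above_comm nad.symm nmd.symm nma.symm, A.above_of_lt _ hdm, not_lt] at h
    exact lt_of_le_of_ne h (A.pos_inj m a d nma.symm nmd.symm nad)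
  -- the first blocking line h
  obtain ⟨h, hh, hminh⟩ := Finset.exists_min_image
    (univ.filter (fun κ => κ ≠ a ∧ κ ≠ b ∧ κ ≠ m ∧ κ ≠ c ∧ ¬ A.Above κ a b ∧
      (κ = d ∨ ¬ A.Above κ c d) ∧ A.pos m a < A.pos m κ ∧ A.pos m κ ≤ A.pos m d))
    (fun κ => A.pos m κ)
    ⟨d, Finset.mem_filter.mpr ⟨Finset.mem_univ _,
      ⟨nad.symm, ndb, nmd.symm, ncd.symm, hud, Or.inl rfl, p5, le_refl _⟩⟩⟩
  simp only [Finset.mem_filter, Finset.mem_univ, true_and] at hh hminh
  obtain ⟨nha, nhb, nhm, nhc, hhu, hhv, p6, p7⟩ := hh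
  -- facts valid for every other line
  have general : ∀ κ, κ ≠ a → κ ≠ b → κ ≠ c → κ ≠ d → κ ≠ m → κ ≠ h →
      (A.Above κ a m ↔ A.Above κ m a) ∧ (A.Above κ c d ↔ A.Above κ d c) ∧
      (A.Above κ a b → ¬ A.Above κ a m → A.sl a < A.sl κ) ∧
      (¬ A.Above κ a b → A.Above κ a m → A.sl κ < A.sl a) ∧
      (A.Above κ m a → ¬ A.Above κ m h → A.sl m < A.sl κ) ∧
      (¬ A.Above κ m a → A.Above κ m h → A.sl κ < A.sl m) ∧
      (A.Above κ a b → A.sl κ < A.sl h → A.Above κ m h) ∧
      (A.Above κ a b → ¬ A.Above κ c d → A.sl κ < A.sl m → A.Above κ a m) ∧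
      (¬ A.Above κ a b → ¬ A.Above κ c d → ¬ A.Above κ m a → ¬ A.Above κ m h) := by
    intro κ k1 k2 k3 k4 k5 k6
    have t1 := A.tr (κ := κ) k1 nab.symm nma p1
    have t2 := A.tr (κ := κ) k5 nma.symm nhm p6
    refine ⟨A.above_comm k1 k5 nma.symm, A.above_comm k3 k4 ncd, t1.1, t1.2, t2.1, t2.2,
      ?_, ?_, ?_⟩
    · intro h1 h2
      by_contra hcon
      exact A.chain2 nab.symm nma nhm p1 p6 κ h h2 (Or.inr (Or.inr h1))
        (Or.inr (Or.inr hhu)) ⟨Or.inr (Or.inl rfl), Or.inr (Or.inr hcon)⟩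
    · intro h1 h2 h3
      by_contra hcon
      have hκL : κ ∈ L := by
        by_contra hκ
        exact absurd (hL m hmL κ hκ) (not_lt_of_gt h3)
      have := hmin κ ⟨A.mem_dn.mpr ⟨hκL, k1, k2, h1⟩, h2⟩
      have h4 := t1.1 h1 hcon
      rw [A.above_of_gt h4 nma k5.symm, not_lt] at hcon
      exact A.pos_inj a κ m k1 nma k5 (le_antisymm hcon this)
    · intro h1 h2 h3 h4
      have h5 := t2.2 h3 h4
      have h6 : A.pos m a < A.pos m κ := by
        rw [A.above_of_lt _ h5, not_lt] at h3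
        exact lt_of_le_of_ne h3 (A.pos_inj m a κ nma.symm k5 k1.symm)
      have h7 := (A.above_of_lt _ h5).mp h4
      have := hminh κ ⟨k1, k2, k5, k3, h1, Or.inr h2, h6, (le_of_lt h7).trans p7⟩
      linarith
  -- lines of `up` are never touched
  have hupm : ∀ κ ∈ A.up L a b, κ ≠ a ∧ κ ≠ b ∧ κ ≠ c ∧ κ ≠ d ∧ κ ≠ m ∧ ¬ A.Above κ a b ∧
      ¬ A.Above κ a m ∧ ¬ A.Above κ m a ∧ ¬ A.Above κ c d ∧ ¬ A.Above κ d c ∧
      A.sl m < A.sl κ := by
    intro κ hκ
    obtain ⟨g1, g2, g3⟩ := hnear κ hκ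
    rw [mem_up] at hκ
    obtain ⟨k1, k2, k3, k4⟩ := hκ
    have k5 : κ ≠ m := by rintro rfl; exact k1 hmL
    have s1 := hL a ha κ k1
    have s2 := hL m hmL κ k1
    have k6 : ¬ A.Above κ a m := by
      rw [A.above_of_gt s1 nma k5.symm]
      rw [A.above_of_gt s1 nab.symm k3.symm] at k4
      intro hh; exact k4 (p1.trans hh)
    refine ⟨k2, k3, g1, g2, k5, k4, k6, ?_, g3, ?_, s2⟩
    · rw [← A.above_comm k2 k5 nma.symm]; exact k6
    · rw [← A.above_comm g1 g2 ncd]; exact g3
  by_cases hhd : h = d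
  · -- the middle line meets d first
    subst hhd
    have H1 : A.Above b a m ↔ A.Above b m h := by
      have h1 : ¬ A.Above b m a := by rw [← A.above_comm nab.symm nmb.symm nma.symm]; exact z1b
      have h2 : ¬ A.Above b m h := by
        rw [A.above_of_gt hmb nma.symm nab] at h1
        rw [A.above_of_gt hmb nhm nhb]
        intro hh; exact h1 (p6.trans hh)
      simp [z1b, h2]
    have H2 : A.Above h a m ↔ A.Above h a b := by simp [z1d, hud]
    have e1 := A.tri m h nhm.symm _ a b nab nma.symm nha.symm nmb.symm nhb.symm H1 H2 rfl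
    have e2 := A.line_move h _ m c nmd nhc.symm nmc rfl
    have hT1 : ∀ κ ∈ A.touch a b m h, κ ≠ a ∧ κ ≠ b ∧ κ ≠ c ∧ κ ≠ h ∧ κ ≠ m ∧
        (¬ (A.Above κ a b ↔ A.Above κ a m) ∨ ¬ (A.Above κ m a ↔ A.Above κ m h)) := by
      intro κ hκ
      rw [mem_touch] at hκ
      obtain ⟨g1, g2, g3, g4, g5⟩ := hκ
      refine ⟨g1, g2, ?_, g4, g3, g5⟩
      rintro rfl
      have c1 : ¬ A.Above κ m a := by
        rw [← A.above_comm nac.symm nmc.symm nma.symm]; exact z1c
      have c2 : ¬ A.Above κ m h := by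
        have h1 := (A.above_comm nmc.symm ncd nmd)
        rw [h1, A.above_of_lt _ hcd]
        exact not_lt_of_gt p4
      simp only [huc, z1c, c1, c2] at g5
      simp at g5
    have hT2 : ∀ κ ∈ A.cr h m c, κ ≠ a ∧ κ ≠ b ∧ κ ≠ c ∧ κ ≠ h ∧ κ ≠ m ∧
        ¬ (A.Above κ h m ↔ A.Above κ h c) := by
      intro κ hκ
      rw [A.mem_cr_iff nmd nhc.symm] at hκ
      obtain ⟨g1, g2, g3, g4⟩ := hκ
      refine ⟨?_, ?_, g3, g1, g2, g4⟩
      · rintro rfl
        have c1 : A.Above κ h c := (A.above_comm nad nac ncd.symm).mpr hva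
        have c2 : A.Above κ h m := by
          rw [A.above_comm nad nma.symm nmd.symm, A.above_of_lt _ ham]
          exact p6
        exact g4 (by simp [c1, c2])
      · rintro rfl
        have c1 : ¬ A.Above κ h c := by rw [A.above_comm nhb.symm ncb.symm nhc]; exact hvb
        have c2 : ¬ A.Above κ h m := by
          have h1 : ¬ A.Above κ m a := by
            rw [← A.above_comm nab.symm nmb.symm nma.symm]; exact z1b
          rw [A.above_comm nhb.symm nmb.symm nhm, A.above_of_gt hmb nhm nhb]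
          rw [A.above_of_gt hmb nma.symm nab] at h1
          intro hh; exact h1 (p6.trans hh)
        exact g4 (by simp [c1, c2])
    have hdisj : Disjoint (A.touch a b m h) (A.cr h m c) := by
      rw [Finset.disjoint_left]
      intro κ h1 h2
      obtain ⟨k1, k2, k3, k4, k5, k6⟩ := hT1 κ h1
      obtain ⟨-, -, -, -, -, k7⟩ := hT2 κ h2
      obtain ⟨f1, f2, f3, f4, f5, f6, f7, f8, f9⟩ := general κ k1 k2 k3 k4 k5 k4
      have f10 := A.above_comm k5 k4 nmd
      have t3 := A.tr (κ := κ) k4 nmd nhc.symm p4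
      grind
    have hedge : A.G.edist (A.vtx a b) (A.vtx c h) ≤
        ((3 + (A.touch a b m h ∪ A.cr h m c).card : ℕ) : ℕ∞) := by
      rw [Finset.card_union_of_disjoint hdisj]
      calc A.G.edist (A.vtx a b) (A.vtx c h)
          ≤ A.G.edist (A.vtx a b) (A.vtx m h) + A.G.edist (A.vtx m h) (A.vtx c h) :=
            SimpleGraph.edist_triangle
        _ = A.G.edist (A.vtx a b) (A.vtx m h) + A.G.edist (A.vtx h m) (A.vtx h c) := by
            rw [A.vtx_comm m h nmd, A.vtx_comm c h ncd]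
        _ ≤ ((2 + (A.touch a b m h).card : ℕ) : ℕ∞) + ((1 + (A.cr h m c).card : ℕ) : ℕ∞) :=
            add_le_add e1 e2
        _ = ((3 + ((A.touch a b m h).card + (A.cr h m c).card) : ℕ) : ℕ∞) := by
            push_cast; ring
    refine A.good_of_card _ (A.up L a b) {a, b, c, h, m} hedge
      (by rw [card_five nab nac nad nma.symm ncb.symm ndb.symm nmb.symm ncd nmc.symm nmd.symm])
      ?_ ?_ ?_ hq
    · intro κ hκ
      rw [Finset.mem_union] at hκ
      rcases hκ with hκ | hκ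
      · obtain ⟨k1, k2, k3, k4, k5, -⟩ := hT1 κ hκ
        simp [k1, k2, k3, k4, k5]
      · obtain ⟨k1, k2, k3, k4, k5, -⟩ := hT2 κ hκ
        simp [k1, k2, k3, k4, k5]
    · intro κ hκ
      obtain ⟨k1, k2, k3, k4, k5, -⟩ := hupm κ hκ
      simp [k1, k2, k3, k4, k5]
    · intro κ hκ hκ'
      obtain ⟨k1, k2, k3, k4, k5, k6, k7, k8, k9, k10, k11⟩ := hupm κ hκ'
      have c1 : ¬ A.Above κ m h := by
        rw [A.above_of_gt k11 nhm k4.symm]
        rw [A.above_of_gt k11 nma.symm k1.symm] at k8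
        intro hh; exact k8 (p6.trans hh)
      have c2 : ¬ A.Above κ h m := by rw [← A.above_comm k5 k4 nmd]; exact c1
      rw [Finset.mem_union] at hκ
      rcases hκ with hκ | hκ
      · have := (hT1 κ hκ).2.2.2.2.2
        simp only [k6, k7, k8, c1] at this
        simp at this
      · have := (hT2 κ hκ).2.2.2.2.2
        simp only [c2, k10] at this
        simp at this
  · -- the general case
    have hhv' : ¬ A.Above h c d := by
      rcases hhv with hh | hh
      · exact absurd hh hhd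
      · exact hh
    have p7' : A.pos m h < A.pos m d := lt_of_le_of_ne p7 (A.pos_inj m h d nhm nmd.symm hhd)
    have ghm : A.sl h < A.sl m := by
      rcases A.sl_lt_or_gt nhm with hh | hh
      · exact hh
      · exfalso
        have h1 : A.Above h m a := (A.above_of_gt hh nma.symm nha.symm).mpr p6
        rw [A.above_comm nhm nha nma] at h1
        have h2 := ham.trans hh
        rw [A.above_of_gt h2 nma nhm.symm] at h1
        rw [A.above_of_gt h2 nab.symm nhb.symm] at hhu
        exact hhu (p1.trans h1)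
    have z2h : A.Above h d m := by
      rw [A.above_comm hhd nhm nmd.symm, A.above_of_lt _ ghm]; exact p7'
    have hhvd : ¬ A.Above h d c := by rw [A.above_comm hhd nhc ncd.symm]; exact hhv'
    have gdh : A.sl d < A.sl h := (A.tr hhd nmd ncd p4).1 z2h hhvd
    have gch := hcd.trans gdh
    have gah := had.trans gdh
    have ghb := ghm.trans hmb
    have z1h : ¬ A.Above h a m := by
      rw [A.above_comm nha nhm nma.symm, A.above_of_lt _ ghm]
      exact not_lt_of_gt p6
    have z1b' : ¬ A.Above b m a := by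
      rw [← A.above_comm nab.symm nmb.symm nma.symm]; exact z1b
    have yb : ¬ A.Above b m h := by
      have h1 := z1b'
      rw [A.above_of_gt hmb nma.symm nab] at h1
      rw [A.above_of_gt hmb nhm nhb]
      intro hh; exact h1 (p6.trans hh)
    have H1 : A.Above b a m ↔ A.Above b m h := by simp [z1b, yb]
    have H2 : A.Above h a m ↔ A.Above h a b := by simp [z1h, hhu]
    have e1 := A.tri m h nhm.symm _ a b nab nma.symm nha.symm nmb.symm nhb.symm H1 H2 rfl
    -- second triangle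
    have p8 : A.pos d m < A.pos d h := (A.above_of_gt gdh nmd nhm.symm).mp z2h
    have p9 : A.pos d h < A.pos d c := by
      rw [A.above_of_gt gdh ncd nhc.symm, not_lt] at hhvd
      exact lt_of_le_of_ne hhvd (A.pos_inj d h c hhd ncd nhc)
    have zm : ¬ A.Above m h d := by
      rw [A.above_comm nhm.symm nmd hhd, A.above_of_gt hdm hhd nhm]
      exact not_lt_of_gt p8
    have zc : ¬ A.Above c h d := by
      rw [A.above_comm nhc.symm ncd hhd, A.above_of_lt _ hcd]
      exact not_lt_of_gt p9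
    have yd : ¬ A.Above d h m := by
      rw [A.above_comm (Ne.symm hhd) nmd.symm nhm, A.above_of_lt _ hdm]
      exact not_lt_of_gt p7'
    have p10 : A.pos h m < A.pos h d := by
      have h1 := yd
      rw [A.above_of_lt _ gdh, not_lt] at h1
      exact lt_of_le_of_ne h1 (A.pos_inj h m d nhm.symm (Ne.symm hhd) nmd)
    have yc : ¬ A.Above c h m := by
      have h1 := zc
      rw [A.above_of_lt _ gch] at h1 ⊢
      intro hh; exact h1 (hh.trans p10)
    have H3 : A.Above m h d ↔ A.Above m d c := by simp [zm, hmv']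
    have H4 : A.Above c h d ↔ A.Above c h m := by simp [zc, yc]
    have e2 := A.tri d c ncd.symm _ h m nhm hhd nhc nmd nmc H3 H4 rfl
    have hT1 : ∀ κ ∈ A.touch a b m h, κ ≠ a ∧ κ ≠ b ∧ κ ≠ c ∧ κ ≠ d ∧ κ ≠ m ∧ κ ≠ h ∧
        (¬ (A.Above κ a b ↔ A.Above κ a m) ∨ ¬ (A.Above κ m a ↔ A.Above κ m h)) := by
      intro κ hκ
      rw [mem_touch] at hκ
      obtain ⟨g1, g2, g3, g4, g5⟩ := hκ
      refine ⟨g1, g2, ?_, ?_, g3, g4, g5⟩
      · rintro rfl
        have c1 : ¬ A.Above κ m a := by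
          rw [← A.above_comm nac.symm nmc.symm nma.symm]; exact z1c
        have c2 : ¬ A.Above κ m h := by
          rw [← A.above_comm nhc.symm nmc.symm nhm]; exact yc
        simp only [huc, z1c, c1, c2] at g5
        simp at g5
      · rintro rfl
        have c1 : ¬ A.Above κ m a := by
          rw [← A.above_comm nad.symm nmd.symm nma.symm]; exact z1d
        have c2 : ¬ A.Above κ m h := by
          rw [← A.above_comm (Ne.symm hhd) nmd.symm nhm]; exact yd
        simp only [hud, z1d, c1, c2] at g5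
        simp at g5
    have hT2 : ∀ κ ∈ A.touch h m d c, κ ≠ a ∧ κ ≠ b ∧ κ ≠ c ∧ κ ≠ d ∧ κ ≠ m ∧ κ ≠ h ∧
        (¬ (A.Above κ h m ↔ A.Above κ h d) ∨ ¬ (A.Above κ d h ↔ A.Above κ d c)) := by
      intro κ hκ
      rw [mem_touch] at hκ
      obtain ⟨g1, g2, g3, g4, g5⟩ := hκ
      refine ⟨?_, ?_, g4, g3, g2, g1, g5⟩
      · rintro rfl
        have c1 : A.Above κ d c := (A.above_comm nad nac ncd.symm).mpr hva
        have c2 : A.Above κ h m := by
          rw [A.above_comm nha.symm nma.symm nhm, A.above_of_lt _ ham]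
          exact p6
        have c3 : A.Above κ h d := by
          rw [A.above_of_lt _ gah] at c2 ⊢
          exact c2.trans p10
        have c4 : A.Above κ d h := (A.above_comm nad nha.symm (Ne.symm hhd)).mpr c3
        simp only [c1, c2, c3, c4] at g5
        simp at g5
      · rintro rfl
        have c1 : ¬ A.Above κ d c := by rw [A.above_comm ndb.symm ncb.symm ncd.symm]; exact hvb
        have c2 : ¬ A.Above κ h m := by
          rw [A.above_comm nhb.symm nmb.symm nhm]; exact yb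
        have c3 : ¬ A.Above κ h d := by
          rw [A.above_of_gt ghb nhm.symm nmb] at c2
          rw [A.above_of_gt ghb (Ne.symm hhd) ndb]
          intro hh; exact c2 (p10.trans hh)
        have c4 : ¬ A.Above κ d h := by
          rw [A.above_comm ndb.symm nhb.symm (Ne.symm hhd)]; exact c3
        simp only [c1, c2, c3, c4] at g5
        simp at g5
    have hdisj : Disjoint (A.touch a b m h) (A.touch h m d c) := by
      rw [Finset.disjoint_left]
      intro κ h1 h2
      obtain ⟨k1, k2, k3, k4, k5, k6, k7⟩ := hT1 κ h1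
      obtain ⟨-, -, -, -, -, -, k8⟩ := hT2 κ h2
      obtain ⟨f1, f2, f3, f4, f5, f6, f7, f8, f9⟩ := general κ k1 k2 k3 k4 k5 k6
      have f10 := A.above_comm k5 k6 nhm.symm
      have f11 := A.above_comm k6 k4 hhd
      have t3 := A.tr (κ := κ) k6 nhm.symm (Ne.symm hhd) p10
      have t4 := A.tr (κ := κ) k4 hhd ncd p9
      grind
    have hedge : A.G.edist (A.vtx a b) (A.vtx c d) ≤
        ((4 + (A.touch a b m h ∪ A.touch h m d c).card : ℕ) : ℕ∞) := by
      rw [Finset.card_union_of_disjoint hdisj]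
      calc A.G.edist (A.vtx a b) (A.vtx c d)
          ≤ A.G.edist (A.vtx a b) (A.vtx m h) + A.G.edist (A.vtx m h) (A.vtx c d) :=
            SimpleGraph.edist_triangle
        _ = A.G.edist (A.vtx a b) (A.vtx m h) + A.G.edist (A.vtx h m) (A.vtx d c) := by
            rw [A.vtx_comm m h nhm.symm, A.vtx_comm c d ncd]
        _ ≤ ((2 + (A.touch a b m h).card : ℕ) : ℕ∞) + ((2 + (A.touch h m d c).card : ℕ) : ℕ∞) :=
            add_le_add e1 e2
        _ = ((4 + ((A.touch a b m h).card + (A.touch h m d c).card) : ℕ) : ℕ∞) := by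
            push_cast; ring
    refine A.good_of_card _ (A.up L a b) {a, b, c, d, m, h} hedge
      (by rw [card_six nab nac nad nma.symm nha.symm ncb.symm ndb.symm nmb.symm nhb.symm ncd
            nmc.symm nhc.symm nmd.symm (Ne.symm hhd) nhm.symm])
      ?_ ?_ ?_ hq
    · intro κ hκ
      rw [Finset.mem_union] at hκ
      rcases hκ with hκ | hκ
      · obtain ⟨k1, k2, k3, k4, k5, k6, -⟩ := hT1 κ hκ
        simp [k1, k2, k3, k4, k5, k6]
      · obtain ⟨k1, k2, k3, k4, k5, k6, -⟩ := hT2 κ hκ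
        simp [k1, k2, k3, k4, k5, k6]
    · intro κ hκ
      obtain ⟨k1, k2, k3, k4, k5, k6, -, -, -, -, k11⟩ := hupm κ hκ
      have k12 : κ ≠ h := by rintro rfl; linarith
      simp [k1, k2, k3, k4, k5, k12]
    · intro κ hκ hκ'
      obtain ⟨k1, k2, k3, k4, k5, k6, k7, k8, k9, k10, k11⟩ := hupm κ hκ'
      have k12 : κ ≠ h := by rintro rfl; linarith
      have c1 : ¬ A.Above κ m h := by
        rw [A.above_of_gt k11 nhm k12.symm]
        rw [A.above_of_gt k11 nma.symm k1.symm] at k8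
        intro hh; exact k8 (p6.trans hh)
      have c2 : ¬ A.Above κ h m := by rw [← A.above_comm k5 k12 nhm.symm]; exact c1
      have k13 := ghm.trans k11
      have c3 : ¬ A.Above κ h d := by
        rw [A.above_of_gt k13 nhm.symm k5.symm] at c2
        rw [A.above_of_gt k13 (Ne.symm hhd) k4.symm]
        intro hh; exact c2 (p10.trans hh)
      have c4 : ¬ A.Above κ d h := by rw [← A.above_comm k12 k4 hhd]; exact c3
      rw [Finset.mem_union] at hκ
      rcases hκ with hκ | hκ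
      · have := (hT1 κ hκ).2.2.2.2.2.2
        simp only [k6, k7, k8, c1] at this
        simp at this
      · have := (hT2 κ hκ).2.2.2.2.2.2
        simp only [c2, c3, c4, k10] at this
        simp at this

end Arr

end Pool.Agent.W5h16.Pseudo
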